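import Pool.Agent.Z72.SR.Rgm

/-! Part EA of project SR: the fixed block over the times which are not regular. -/

set_option autoImplicit false

namespace Pool.Agent.Z72.SR

open Complex MeasureTheory Set Filter
open Pool.Agent.TH612.GS (z z_cont)
open Pool.Agent.Z72.SF (AF ee)
open Pool.Agent.T2h20.SR (prod_le_pow)

noncomputable section

theorem cube_le {x V : ℝ} (hx : 0 ≤ x) (hV : 0 < V) : x ^ 3 ≤ V ^ 3 + x ^ 4 / V := by
  rcases le_total x V with h | h
  · have h1 : x ^ 3 ≤ V ^ 3 := pow_le_pow_left₀ hx h 3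
    have h2 : 0 ≤ x ^ 4 / V := by positivity
    linarith
  · have h1 : x ^ 3 ≤ x ^ 4 / V := by
      rw [le_div_iff₀ hV]
      have : x ^ 3 * V ≤ x ^ 3 * x := mul_le_mul_of_nonneg_left h (by positivity)
      calc x ^ 3 * V ≤ x ^ 3 * x := this
        _ = x ^ 4 := by ring
    have h2 : 0 ≤ V ^ 3 := by positivity
    linarith

theorem t_EA (hRGM : S_RGM) (hA2F : Pool.Agent.Z72.SF.S_A2F) : S_EA := by
  intro k F α κ η hF hκ hη hη1
  have hη24 : 0 < η / 24 := by positivity
  obtain ⟨C1, hC1, hR⟩ := hRGM k F α κ η (η / 24) hκ hη hη24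
  choose Cj hCj hmj using fun j => m4 hA2F (α j) (η / 24) hη24
  have hS : 0 ≤ ∑ j ∈ F, Cj j := Finset.sum_nonneg fun j _ => (hCj j).le
  refine ⟨(1 + F.card) * C1 + ∑ j ∈ F, Cj j, by positivity, fun T hT => ?_⟩
  have hT0 : 0 < T := by linarith
  have hT1 : 1 ≤ T := by linarith
  set V : ℝ := T ^ (η / 6) with hV
  have hV0 : 0 < V := by positivity
  have hV1 : 1 ≤ V := Real.one_le_rpow hT1 (by positivity)
  set E : Set ℝ := Icc 0 T \ Rg F α κ η T with hE
  have hcj : ∀ j, Continuous fun t => ‖z (t + α j)‖ ^ 4 := fun j =>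
    (z_cont.norm.comp (continuous_id.add continuous_const)).pow _
  have hpt : ∀ t, ‖AF F α t‖ ≤ (1 + F.card) * V ^ 3 + (∑ j ∈ F, ‖z (t + α j)‖ ^ 4) / V := by
    intro t
    have h1 : ‖AF F α t‖ ≤ 1 + ∑ j ∈ F, ‖z (t + α j)‖ ^ 3 := by
      unfold AF
      rw [norm_prod]
      exact prod_le_pow F hF (fun j => ‖z (t + α j)‖) fun j => norm_nonneg _
    have h2 : ∑ j ∈ F, ‖z (t + α j)‖ ^ 3 ≤ ∑ j ∈ F, (V ^ 3 + ‖z (t + α j)‖ ^ 4 / V) :=
      Finset.sum_le_sum fun j _ => cube_le (norm_nonneg _) hV0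
    rw [Finset.sum_add_distrib, Finset.sum_const, nsmul_eq_mul, ← Finset.sum_div] at h2
    have h3 : 1 ≤ V ^ 3 := one_le_pow₀ hV1
    linarith
  have h1 : ∫⁻ t in E, ENNReal.ofReal ‖AF F α t‖ ≤
      ∫⁻ t in E, (ENNReal.ofReal ((1 + F.card) * V ^ 3) +
        ENNReal.ofReal ((∑ j ∈ F, ‖z (t + α j)‖ ^ 4) / V)) := by
    refine lintegral_mono fun t => ?_
    rw [← ENNReal.ofReal_add (by positivity) (by positivity)]
    exact ENNReal.ofReal_le_ofReal (hpt t)
  have hexp : T ^ (1 - η + η / 24) * V ^ 3 ≤ T ^ (1 - η / 8) := by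
    rw [hV, ← Real.rpow_natCast, ← Real.rpow_mul hT0.le, ← Real.rpow_add hT0]
    refine Real.rpow_le_rpow_of_exponent_le hT1 ?_
    push_cast
    linarith
  have h2 : ∫⁻ _t in E, ENNReal.ofReal ((1 + F.card) * V ^ 3) ≤
      ENNReal.ofReal ((1 + F.card) * C1 * T ^ (1 - η / 8)) := by
    rw [setLIntegral_const]
    calc ENNReal.ofReal ((1 + F.card) * V ^ 3) * volume E
        ≤ ENNReal.ofReal ((1 + F.card) * V ^ 3) * ENNReal.ofReal (C1 * T ^ (1 - η + η / 24)) :=
          mul_le_mul' le_rfl (hR T hT)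
      _ = ENNReal.ofReal (((1 + F.card) * C1) * (T ^ (1 - η + η / 24) * V ^ 3)) := by
          rw [← ENNReal.ofReal_mul (by positivity)]
          congr 1
          ring
      _ ≤ _ := ENNReal.ofReal_le_ofReal (mul_le_mul_of_nonneg_left hexp (by positivity))
  have h3 : ∫⁻ t in E, ENNReal.ofReal ((∑ j ∈ F, ‖z (t + α j)‖ ^ 4) / V) ≤
      ENNReal.ofReal ((∑ j ∈ F, Cj j) * T ^ (1 - η / 8)) := by
    have hcs : Continuous fun t => (∑ j ∈ F, ‖z (t + α j)‖ ^ 4) / V :=
      (continuous_finsetSum _ fun j _ => hcj j).div_const V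
    refine (lintegral_mono_set (show E ⊆ Icc 0 T from sdiff_subset)).trans ?_
    rw [← ofReal_integral_eq_lintegral_ofReal
      (hcs.continuousOn.integrableOn_compact isCompact_Icc)
      (Eventually.of_forall fun t => by positivity)]
    refine ENNReal.ofReal_le_ofReal ?_
    rw [integral_Icc_eq_integral_Ioc, ← intervalIntegral.integral_of_le hT0.le,
      intervalIntegral.integral_div,
      intervalIntegral.integral_finsetSum fun j _ => (hcj j).intervalIntegrable _ _,
      div_le_iff₀ hV0, Finset.sum_mul, Finset.sum_mul]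
    refine Finset.sum_le_sum fun j _ => ?_
    refine (hmj j T hT).trans ?_
    rw [mul_assoc]
    refine mul_le_mul_of_nonneg_left ?_ (hCj j).le
    rw [hV, ← Real.rpow_add hT0]
    exact Real.rpow_le_rpow_of_exponent_le hT1 (by linarith)
  refine h1.trans ?_
  rw [lintegral_add_left measurable_const]
  refine (add_le_add h2 h3).trans ?_
  rw [← ENNReal.ofReal_add (by positivity) (by positivity), ← add_mul]

end

end Pool.Agent.Z72.SR
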