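import Pool.Agent.Z72.SR.Stm
import Pool.Agent.Z72.SF.Rpf
import Pool.Agent.N879.PU.Iru

set_option autoImplicit false

/-! # Project SR, part IRR: the integral of the polynomials over the other times, first moment -/

namespace Pool.Agent.Z72.SR

open Complex Filter Topology MeasureTheory Set
open Pool.Agent.TH612.GS (z zN PN mP zr DD PN_cont)
open Pool.Agent.Z72.SF (AF mx hF AF_contR hF_contR hF_cases)
open Pool.Agent.N879.PU (fs fs_norm)
open Pool.Agent.N879.PU.Iruaux (cont_prod one)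
open Pool.Agent.Z72.SQ.RpAux (log_pow_bound)

noncomputable section

theorem t_IRR (hWI : Pool.Agent.N879.PU.S_WINU) : S_IRR := by
  intro k ε hε
  obtain ⟨Cw, hCw, hwin⟩ := hWI
  obtain ⟨L, hL, hlog⟩ := log_pow_bound (2 * k) hε
  refine ⟨(16 * Cw + 1) ^ k * L * 16 ^ ε, by positivity, ?_⟩
  intro F α R T U a b N hR hT hU hUT hN hNU ha hab hbT
  have hT0 : (0 : ℝ) < T := by linarith
  have hU0 : (0 : ℝ) < U := by linarith
  have hN0 : (1 : ℝ) ≤ N := by exact_mod_cast hN
  have hlogN : 0 ≤ Real.log N := Real.log_nonneg hN0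
  obtain ⟨W, hW⟩ : ∃ W : ℝ, W = (16 * Cw + 1) * (1 + Real.log N) ^ 2 := ⟨_, rfl⟩
  have hW1 : 1 ≤ W := by
    rw [hW]
    nlinarith [sq_nonneg (Real.log N)]
  have hW0 : 0 ≤ W := by linarith
  -- the second moment of one factor over the window
  have hone : ∀ (i : Fin k ⊕ Fin k) (t : ℝ),
      ∫ c in (0 : ℝ)..U, ‖hF F (PN N) i (t + c)‖ ^ 2 ≤ U * W := by
    intro i t
    rcases hF_cases F i with h | h
    · rw [h]
      simp only [norm_one, one_pow, intervalIntegral.integral_const, sub_zero, smul_eq_mul, mul_one]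
      nlinarith
    · rw [h]
      simp only [fs_norm]
      have h1 := hwin (16 * U) t N (by linarith) hN hNU
      have h2 : ∫ c in (0 : ℝ)..U, ‖PN N (t + c)‖ ^ 2 ≤ ∫ c in (0 : ℝ)..(16 * U), ‖PN N (t + c)‖ ^ 2 := by
        refine intervalIntegral.integral_mono_interval le_rfl hU0.le (by linarith) ?_ ?_
        · exact Eventually.of_forall fun c => by positivity
        · exact (((PN_cont N).comp (continuous_const.add continuous_id)).norm.pow 2).intervalIntegrable _ _
      refine (h2.trans h1).trans ?_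
      rw [hW]
      have h3 : 0 ≤ U * (1 + Real.log N) ^ 2 := by positivity
      nlinarith
  have hgc : ∀ i : Fin k ⊕ Fin k, Continuous (hF F (PN N) i) := fun i => hF_contR F (PN_cont N) i
  -- the first moment of the product
  have hprod : ∀ t : ℝ, ∫⁻ ξ, ENNReal.ofReal ‖∏ i, hF F (PN N) i (t + ξ i)‖ ∂(mP (Fin k ⊕ Fin k) U) ≤
      ENNReal.ofReal ((U * √W) ^ (2 * k)) := by
    intro t
    have h3 : ∀ i : Fin k ⊕ Fin k, Continuous fun c => hF F (PN N) i (t + c) := fun i =>
      (hgc i).comp (continuous_const.add continuous_id)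
    have hi : ∀ i : Fin k ⊕ Fin k, Integrable (fun c => ‖hF F (PN N) i (t + c)‖)
        (volume.restrict (Icc (0 : ℝ) U)) := fun i =>
      (h3 i).norm.continuousOn.integrableOn_compact isCompact_Icc
    have h4 : ∫⁻ γ, ENNReal.ofReal ‖∏ i, hF F (PN N) i (t + γ i)‖ ∂(mP (Fin k ⊕ Fin k) U) =
        ENNReal.ofReal (∏ i, ∫ c in Icc (0 : ℝ) U, ‖hF F (PN N) i (t + c)‖) := by
      unfold Pool.Agent.TH612.GS.mP
      rw [← integral_fintype_prod_eq_prod (𝕜 := ℝ) (fun i c => ‖hF F (PN N) i (t + c)‖)]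
      rw [ofReal_integral_eq_lintegral_ofReal]
      · refine lintegral_congr fun γ => ?_
        rw [norm_prod]
      · exact Integrable.fintype_prod (f := fun i c => ‖hF F (PN N) i (t + c)‖) hi
      · exact Eventually.of_forall fun γ => Finset.prod_nonneg fun i _ => norm_nonneg _
    have hcard : Fintype.card (Fin k ⊕ Fin k) = 2 * k := by
      rw [Fintype.card_sum, Fintype.card_fin]
      ring
    rw [h4, ← hcard, ← Finset.card_univ, ← Finset.prod_const]
    refine ENNReal.ofReal_le_ofReal (Finset.prod_le_prod (fun i _ => ?_) fun i _ => ?_)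
    · exact integral_nonneg fun c => norm_nonneg _
    · exact one U W hU0 hW0 _ (h3 i) (hone i t)
  have hsf : SFinite (mP (Fin k ⊕ Fin k) U) := by
    unfold Pool.Agent.TH612.GS.mP
    have : IsFiniteMeasure ((volume : Measure ℝ).restrict (Icc (0 : ℝ) U)) := by
      refine ⟨?_⟩
      rw [Measure.restrict_apply_univ, Real.volume_Icc]
      exact ENNReal.ofReal_lt_top
    infer_instance
  have hcont := cont_prod (fun i : Fin k ⊕ Fin k => hF F (PN N) i) hgc
  have hAF := AF_contR F α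
  have hD : Ioc a b ∩ Rᶜ ⊆ Icc 0 T \ R := by
    rintro t ⟨ht, htR⟩
    exact ⟨⟨ha.trans ht.1.le, ht.2.trans hbT⟩, htR⟩
  -- the pointwise bound
  have h1 : ∀ ξ, ENNReal.ofReal ‖IR F α R N a b ξ‖ ≤
      ∫⁻ t in Icc 0 T \ R, ENNReal.ofReal ‖AF F α t‖ *
        ENNReal.ofReal ‖∏ i, hF F (PN N) i (t + ξ i)‖ := by
    intro ξ
    unfold IR
    rw [intervalIntegral.integral_of_le hab, ofReal_norm]
    refine (enorm_integral_le_lintegral_enorm _).trans ?_
    have e1 : ∀ t, ‖Rᶜ.indicator (fun _ => (1:ℂ)) t * (AF F α t * ∏ i, hF F (PN N) i (t + ξ i))‖ₑ =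
        Rᶜ.indicator (fun t => ENNReal.ofReal ‖AF F α t‖ *
          ENNReal.ofReal ‖∏ i, hF F (PN N) i (t + ξ i)‖) t := by
      intro t
      by_cases ht : t ∈ Rᶜ
      · rw [indicator_of_mem ht, indicator_of_mem ht, one_mul, enorm_mul, ofReal_norm, ofReal_norm]
      · rw [indicator_of_notMem ht, indicator_of_notMem ht, zero_mul, enorm_zero]
    simp only [e1]
    rw [lintegral_indicator hR.compl, Measure.restrict_restrict hR.compl, inter_comm]
    exact lintegral_mono_set hD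
  refine (lintegral_mono h1).trans ?_
  have hm : Measurable (fun p : (Fin k ⊕ Fin k → ℝ) × ℝ => ENNReal.ofReal ‖AF F α p.2‖ *
      ENNReal.ofReal ‖∏ i, hF F (PN N) i (p.2 + p.1 i)‖) :=
    Measurable.mul ((hAF.comp continuous_snd).norm.measurable).ennreal_ofReal
      hcont.norm.measurable.ennreal_ofReal
  rw [lintegral_lintegral_swap (f := fun (ξ : Fin k ⊕ Fin k → ℝ) (t : ℝ) =>
    ENNReal.ofReal ‖AF F α t‖ * ENNReal.ofReal ‖∏ i, hF F (PN N) i (t + ξ i)‖) hm.aemeasurable]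
  have h2 : ∀ t, ∫⁻ ξ, ENNReal.ofReal ‖AF F α t‖ *
      ENNReal.ofReal ‖∏ i, hF F (PN N) i (t + ξ i)‖ ∂(mP (Fin k ⊕ Fin k) U) ≤
      ENNReal.ofReal ((U * √W) ^ (2 * k)) * ENNReal.ofReal ‖AF F α t‖ := by
    intro t
    rw [lintegral_const_mul' _ _ ENNReal.ofReal_ne_top, mul_comm]
    gcongr
    exact hprod t
  refine (lintegral_mono h2).trans ?_
  rw [lintegral_const_mul' _ _ ENNReal.ofReal_ne_top]
  gcongr
  -- the bound of the constant
  have e1 : (U * √W) ^ (2 * k) = U ^ (2 * k) * ((16 * Cw + 1) ^ k * (1 + Real.log N) ^ (2 * k)) := by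
    rw [mul_pow, pow_mul (√W), Real.sq_sqrt hW0, hW, mul_pow, ← pow_mul]
  have e2 : (1 + Real.log N) ^ (2 * k) ≤ L * 16 ^ ε * T ^ ε := by
    have h3 : (1 + Real.log N) ^ (2 * k) ≤ (1 + Real.log (16 * T)) ^ (2 * k) := by
      gcongr
      linarith
    refine h3.trans ((hlog (16 * T) (by linarith)).trans (le_of_eq ?_))
    rw [Real.mul_rpow (by norm_num) hT0.le]
    ring
  rw [e1]
  have e3 : 0 ≤ U ^ (2 * k) * (16 * Cw + 1) ^ k := by positivity
  calc U ^ (2 * k) * ((16 * Cw + 1) ^ k * (1 + Real.log N) ^ (2 * k))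
      = U ^ (2 * k) * (16 * Cw + 1) ^ k * (1 + Real.log N) ^ (2 * k) := by ring
    _ ≤ U ^ (2 * k) * (16 * Cw + 1) ^ k * (L * 16 ^ ε * T ^ ε) := mul_le_mul_of_nonneg_left e2 e3
    _ = (16 * Cw + 1) ^ k * L * 16 ^ ε * T ^ ε * U ^ (2 * k) := by ring

end

end Pool.Agent.Z72.SR
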