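import Pool.Agent.Z72.SR.Stm
import Pool.Agent.TH612.GS.Z
import Pool.Agent.T2h20.SR.Win

/-! Part RGM of project SR: almost all times are regular. -/

set_option autoImplicit false

namespace Pool.Agent.Z72.SR

open Complex MeasureTheory Set Filter
open Pool.Agent.TH612.GS (z z_cont)
open Pool.Agent.Z72.SF (AF ee)
open Pool.Agent.T2h20.SR (gcont cheb1 windows)

noncomputable section

theorem Rg_closed {k : ℕ} (F : Finset (Fin k)) (α : Fin k → ℝ) (κ η T : ℝ) :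
    IsClosed (Rg F α κ η T) := by
  have hc : Continuous fun u => ‖z u‖ ^ 2 := z_cont.norm.pow 2
  have e : Rg F α κ η T = Icc 0 T ∩ ((⋂ j ∈ F, {t : ℝ | ‖z (t + α j)‖ ≤ T ^ η}) ∩
      ⋂ U : ℝ, ⋂ _ : T ^ κ ≤ U, ⋂ _ : U ≤ T,
        {t : ℝ | ∫ c in (0:ℝ)..U, ‖z (t + c)‖ ^ 2 ≤ T ^ η * U}) := by
    ext t
    constructor
    · rintro ⟨h1, h2, h3, h4⟩
      refine ⟨⟨h1, h2⟩, ?_, ?_⟩
      · rw [mem_iInter₂]
        exact h3
      · rw [mem_iInter₂]
        intro U hU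
        rw [mem_iInter]
        intro hU'
        exact h4 U hU hU'
    · rintro ⟨⟨h1, h2⟩, h3, h4⟩
      rw [mem_iInter₂] at h3 h4
      refine ⟨h1, h2, h3, fun U hU hU' => ?_⟩
      have := h4 U hU
      rw [mem_iInter] at this
      exact this hU'
  rw [e]
  refine isClosed_Icc.inter (IsClosed.inter ?_ ?_)
  · refine isClosed_biInter fun j _ => isClosed_le ?_ continuous_const
    exact z_cont.norm.comp (continuous_id.add continuous_const)
  · refine isClosed_iInter fun U => isClosed_iInter fun _ => isClosed_iInter fun _ =>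
      isClosed_le ?_ continuous_const
    exact gcont hc U

/-- the second moment -/
theorem m2 (hA : Pool.Agent.Z72.SF.S_A2F) (a ε : ℝ) (hε : 0 < ε) : ∃ C : ℝ, 0 < C ∧
    ∀ T : ℝ, 3 ≤ T → ∫ t in (0:ℝ)..T, ‖z (t + a)‖ ^ 2 ≤ C * T ^ (1 + ε) := by
  obtain ⟨C, hC, h⟩ := hA 1 Finset.univ (fun _ => a) ε (by simp) hε
  refine ⟨C, hC, fun T hT => ?_⟩
  have h1 := h T hT
  have e1 : ee (Finset.univ : Finset (Fin 1)).card = 1 := by
    unfold ee
    simp
    norm_num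
  rw [e1] at h1
  simpa [AF] using h1

/-- the fourth moment -/
theorem m4 (hA : Pool.Agent.Z72.SF.S_A2F) (a ε : ℝ) (hε : 0 < ε) : ∃ C : ℝ, 0 < C ∧
    ∀ T : ℝ, 3 ≤ T → ∫ t in (0:ℝ)..T, ‖z (t + a)‖ ^ 4 ≤ C * T ^ (1 + ε) := by
  obtain ⟨C, hC, h⟩ := hA 2 Finset.univ (fun _ => a) ε (by simp) hε
  refine ⟨C, hC, fun T hT => ?_⟩
  have h1 := h T hT
  have e1 : ee (Finset.univ : Finset (Fin 2)).card = 1 := by
    unfold ee
    simp
    norm_num
  rw [e1] at h1
  have e2 : ∀ t : ℝ, ‖AF (Finset.univ : Finset (Fin 2)) (fun _ => a) t‖ ^ 2 = ‖z (t + a)‖ ^ 4 := by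
    intro t
    unfold AF
    rw [Finset.prod_const, Finset.card_univ, Fintype.card_fin, norm_pow, ← pow_mul]
  simpa only [e2] using h1

theorem t_RGM (hA2F : Pool.Agent.Z72.SF.S_A2F) : S_RGM := by
  intro k F α κ η ε hκ hη hε
  choose Cj hCj hmj using fun j => m2 hA2F (α j) ε hε
  obtain ⟨C0, hC0, hm0⟩ := m2 hA2F 0 (ε / 2) (half_pos hε)
  set K : ℝ := (4 / ε + 1) * 2 ^ (ε / 2) * (C0 * 3 ^ (1 + ε / 2) * 2) with hK
  have hK0 : 0 < K := by positivity
  refine ⟨∑ j ∈ F, Cj j + K, ?_, fun T hT => ?_⟩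
  · have : 0 ≤ ∑ j ∈ F, Cj j := Finset.sum_nonneg fun j _ => (hCj j).le
    linarith
  have hT0 : 0 < T := by linarith
  have hT1 : 1 ≤ T := by linarith
  have hc : Continuous fun u => ‖z u‖ ^ 2 := z_cont.norm.pow 2
  have hsub : Icc 0 T \ Rg F α κ η T ⊆
      (⋃ j ∈ F, {t | t ∈ Icc 0 T ∧ T ^ (2 * η) < ‖z (t + α j)‖ ^ 2}) ∪
      {t | t ∈ Icc 0 T ∧ ∃ U : ℝ, T ^ κ ≤ U ∧ U ≤ T ∧
        T ^ η * U < ∫ c in (0:ℝ)..U, ‖z (t + c)‖ ^ 2} := by
    rintro t ⟨ht, htR⟩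
    by_contra hcon
    rw [mem_union, not_or] at hcon
    obtain ⟨h1, h2⟩ := hcon
    apply htR
    refine ⟨ht.1, ht.2, fun j hj => ?_, fun U hU hU' => ?_⟩
    · by_contra h3
      rw [not_le] at h3
      apply h1
      refine mem_biUnion hj ⟨ht, ?_⟩
      have e : T ^ (2 * η) = (T ^ η) ^ 2 := by
        rw [← Real.rpow_natCast, ← Real.rpow_mul hT0.le]
        congr 1
        push_cast
        ring
      rw [e]
      exact pow_lt_pow_left₀ h3 (by positivity) two_ne_zero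
    · by_contra h3
      rw [not_le] at h3
      exact h2 ⟨ht, U, hU, hU', h3⟩
  refine (measure_mono hsub).trans ((measure_union_le _ _).trans ?_)
  have hp : 0 < T ^ (1 - η + ε) := by positivity
  have hA : volume (⋃ j ∈ F, {t | t ∈ Icc 0 T ∧ T ^ (2 * η) < ‖z (t + α j)‖ ^ 2}) ≤
      ENNReal.ofReal ((∑ j ∈ F, Cj j) * T ^ (1 - η + ε)) := by
    refine (measure_biUnion_finset_le _ _).trans ?_
    rw [Finset.sum_mul, ENNReal.ofReal_sum_of_nonneg fun j _ => by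
      have := hCj j
      positivity]
    refine Finset.sum_le_sum fun j _ => ?_
    refine (cheb1 (g := fun t => ‖z (t + α j)‖ ^ 2)
      (hc.comp (continuous_id.add continuous_const)) (fun u => by positivity) hT0.le
      (by positivity)).trans (ENNReal.ofReal_le_ofReal ?_)
    rw [div_le_iff₀ (by positivity), mul_assoc, ← Real.rpow_add hT0]
    refine (hmj j T hT).trans (mul_le_mul_of_nonneg_left ?_ (hCj j).le)
    exact Real.rpow_le_rpow_of_exponent_le hT1 (by linarith)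
  have hB : volume {t | t ∈ Icc 0 T ∧ ∃ U : ℝ, T ^ κ ≤ U ∧ U ≤ T ∧
        T ^ η * U < ∫ c in (0:ℝ)..U, ‖z (t + c)‖ ^ 2} ≤
      ENNReal.ofReal (K * T ^ (1 - η + ε)) := by
    refine (windows hc (fun u => by positivity) (Real.one_le_rpow hT1 hκ.le) hT1
      (by positivity)).trans (ENNReal.ofReal_le_ofReal ?_)
    have h1 : ∫ u in (0:ℝ)..(3 * T), ‖z u‖ ^ 2 ≤ C0 * (3 * T) ^ (1 + ε / 2) := by
      have := hm0 (3 * T) (by linarith)
      simpa only [add_zero] using this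
    have h2 : 2 * Real.log (2 * T) + 1 ≤ (4 / ε + 1) * (2 * T) ^ (ε / 2) := by
      have h3 := Real.log_le_rpow_div (show 0 ≤ 2 * T by positivity) (half_pos hε)
      have h4 : 1 ≤ (2 * T) ^ (ε / 2) := Real.one_le_rpow (by linarith) (by positivity)
      have h5 : 2 * ((2 * T) ^ (ε / 2) / (ε / 2)) = 4 / ε * (2 * T) ^ (ε / 2) := by
        field_simp
        ring
      nlinarith
    have hlog : 0 ≤ Real.log (2 * T) := Real.log_nonneg (by linarith)
    have h0 : 0 ≤ ∫ u in (0:ℝ)..(3 * T), ‖z u‖ ^ 2 :=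
      intervalIntegral.integral_nonneg (by linarith) fun u _ => by positivity
    calc (2 * Real.log (2 * T) + 1) * ((∫ u in (0:ℝ)..(3 * T), ‖z u‖ ^ 2) / (T ^ η / 2))
        ≤ ((4 / ε + 1) * (2 * T) ^ (ε / 2)) * ((C0 * (3 * T) ^ (1 + ε / 2)) / (T ^ η / 2)) := by
          gcongr
      _ = K * (T ^ (ε / 2) * T ^ (1 + ε / 2) * (T ^ η)⁻¹) := by
          rw [Real.mul_rpow (by norm_num) hT0.le, Real.mul_rpow (by norm_num) hT0.le, hK]
          field_simp
      _ = K * T ^ (1 - η + ε) := by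
          rw [← Real.rpow_neg hT0.le, ← Real.rpow_add hT0, ← Real.rpow_add hT0]
          congr 2
          ring
  have hS : 0 ≤ ∑ j ∈ F, Cj j := Finset.sum_nonneg fun j _ => (hCj j).le
  calc _ ≤ ENNReal.ofReal ((∑ j ∈ F, Cj j) * T ^ (1 - η + ε)) +
        ENNReal.ofReal (K * T ^ (1 - η + ε)) := add_le_add hA hB
    _ = ENNReal.ofReal ((∑ j ∈ F, Cj j + K) * T ^ (1 - η + ε)) := by
        rw [← ENNReal.ofReal_add (by positivity) (by positivity), ← add_mul]

end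

end Pool.Agent.Z72.SR
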