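import Pool.Agent.Z72.SR.Stm
import Pool.Agent.Z72.SF.Rpf

set_option autoImplicit false

/-! Project SR: proof of RPR. -/

namespace Pool.Agent.Z72.SR

open Complex Filter Topology MeasureTheory Set
open Pool.Agent.TH612.GS (z zN PN mP SN zr Sep DD tup ch wt dr IG z_cont PN_cont)
open Pool.Agent.N879.PU (fs fs_norm fs_cont fs_prod card_ii)
open Pool.Agent.N879.PZ (Wb)
open Pool.Agent.Z72.SH (ker_conj)
open Pool.Agent.Z72.SQ.RpAux (cs log_pow_bound op1)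
open Pool.Agent.Z72.SF (AF mx hF ee inF SepF Sf AF_contR hF_contR hF_cases)

noncomputable section

variable {k : ℕ}

theorem win_cont (U : ℝ) : Continuous fun t : ℝ => ∫ c in (0:ℝ)..U, ‖z (t + c)‖ ^ 2 := by
  refine intervalIntegral.continuous_parametric_intervalIntegral_of_continuous'
    (f := fun (t : ℝ) (c : ℝ) => ‖z (t + c)‖ ^ 2) ?_ 0 U
  exact ((z_cont.comp (continuous_fst.add continuous_snd)).norm).pow 2

theorem Rg_closedR (F : Finset (Fin k)) (α : Fin k → ℝ) (κ η T : ℝ) : IsClosed (Rg F α κ η T) := by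
  have e : Rg F α κ η T = {t | 0 ≤ t} ∩ ({t | t ≤ T} ∩ ((⋂ j ∈ F, {t | ‖z (t + α j)‖ ≤ T ^ η}) ∩
      ⋂ U : ℝ, ⋂ (_ : T ^ κ ≤ U), ⋂ (_ : U ≤ T), {t | ∫ c in (0:ℝ)..U, ‖z (t + c)‖ ^ 2 ≤ T ^ η * U})) := by
    ext t
    simp [Rg]
  rw [e]
  refine (isClosed_le continuous_const continuous_id).inter ((isClosed_le continuous_id continuous_const).inter
    ((isClosed_biInter fun j _ => ?_).inter (isClosed_iInter fun U => isClosed_iInter fun _ =>
      isClosed_iInter fun _ => ?_)))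
  · exact isClosed_le ((z_cont.comp (by fun_prop)).norm) continuous_const
  · exact isClosed_le (win_cont U) continuous_const

/-- the replacement with a bounded weight on a subinterval -/
theorem rw_wb (hRW : Pool.Agent.Z72.SH.S_RW) {ι : Type} [Fintype ι] {a b U K : ℝ} {w : ℝ → ℝ} {f g : ι → ℝ → ℂ}
    {v0 : ℝ → ℂ} (hv0 : Wb a b v0) (hab : a ≤ b)
    (hU : 0 < U) (hK : 0 ≤ K) (hw : Continuous w) (hw0 : ∀ t, 0 ≤ w t) (hf : ∀ i, Continuous (f i))
    (hg : ∀ i, Continuous (g i))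
    (h1 : ∀ i, ∀ F : ℝ → ℂ, Wb a b F → ∫ c in (0 : ℝ)..U, ‖∫ t in a..b, F t * (f i (t + c) - g i (t + c))‖ ^ 2 ≤
      K * ∫ t in a..b, ‖F t‖ ^ 2)
    (h2 : ∀ i, ∀ t ∈ Icc a b, ∫ c in (0 : ℝ)..U, ‖f i (t + c)‖ ^ 2 ≤ w t)
    (h3 : ∀ i, ∀ t ∈ Icc a b, ∫ c in (0 : ℝ)..U, ‖g i (t + c)‖ ^ 2 ≤ w t) {x y : ℝ} (hx : a ≤ x) (hxy : x ≤ y)
    (hy : y ≤ b) :
    ∫⁻ γ, ENNReal.ofReal (‖∫ t in x..y, v0 t * (∏ i, f i (t + γ i) - ∏ i, g i (t + γ i))‖ ^ 2) ∂(mP ι U) ≤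
      ENNReal.ofReal (4 ^ Fintype.card ι * K * ∫ t in x..y, ‖v0 t‖ ^ 2 * w t ^ (Fintype.card ι - 1)) := by
  obtain ⟨v, hv⟩ : ∃ v : ℝ → ℂ, v = (Ioc x y).indicator v0 := ⟨_, rfl⟩
  have hvW : Wb a b v := by
    obtain ⟨hm, M, hM⟩ := hv0
    refine ⟨?_, max M 0, fun t ht => ?_⟩
    · rw [hv]; exact hm.indicator measurableSet_Ioc
    · by_cases h : t ∈ Ioc x y
      · rw [hv, indicator_of_mem h]; exact (hM t ht).trans (le_max_left _ _)
      · rw [hv, indicator_of_notMem h, norm_zero]; exact le_max_right _ _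
  have hsub : Ioc x y ⊆ Ioc a b := Ioc_subset_Ioc hx hy
  have key := hRW ι a b U K w f g v hab hU hK hw hw0 hf hg h1 h2 h3 hvW
  have e1 : ∀ G : ℝ → ℂ, ∫ t in a..b, v t * G t = ∫ t in x..y, v0 t * G t := by
    intro G
    rw [intervalIntegral.integral_of_le hab, intervalIntegral.integral_of_le hxy]
    have : ∀ t, v t * G t = (Ioc x y).indicator (fun t => v0 t * G t) t := by
      intro t
      by_cases h : t ∈ Ioc x y
      · rw [hv, indicator_of_mem h, indicator_of_mem h]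
      · rw [hv, indicator_of_notMem h, indicator_of_notMem h, zero_mul]
    simp only [this]
    rw [setIntegral_indicator measurableSet_Ioc, inter_eq_self_of_subset_right hsub]
  have e2 : ∀ G : ℝ → ℝ, ∫ t in a..b, ‖v t‖ ^ 2 * G t = ∫ t in x..y, ‖v0 t‖ ^ 2 * G t := by
    intro G
    rw [intervalIntegral.integral_of_le hab, intervalIntegral.integral_of_le hxy]
    have : ∀ t, ‖v t‖ ^ 2 * G t = (Ioc x y).indicator (fun t => ‖v0 t‖ ^ 2 * G t) t := by
      intro t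
      by_cases h : t ∈ Ioc x y
      · rw [hv, indicator_of_mem h, indicator_of_mem h]
      · rw [hv, indicator_of_notMem h, indicator_of_notMem h, norm_zero]; ring
    simp only [this]
    rw [setIntegral_indicator measurableSet_Ioc, inter_eq_self_of_subset_right hsub]
  simp only [e1, e2] at key
  exact key

/-- the common step -/
theorem rpr_core (hRW : Pool.Agent.Z72.SH.S_RW) {N : ℕ} (F : Finset (Fin k)) (α : Fin k → ℝ) {R : Set ℝ}
    (hR : MeasurableSet R) {U K x y a b : ℝ} {w : ℝ → ℝ} (hw : Continuous w) (hwU : ∀ t, U ≤ w t)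
    (hU : 0 < U) (hK0 : 0 ≤ K) (hxy : x ≤ y)
    (h1 : ∀ F : ℝ → ℂ, Wb x y F → ∫ c in (0 : ℝ)..U, ‖∫ t in x..y, F t * (z (t + c) - PN N (t + c))‖ ^ 2 ≤
      K * ∫ t in x..y, ‖F t‖ ^ 2)
    (h2 : ∀ t ∈ Icc x y, ∫ c in (0 : ℝ)..U, ‖z (t + c)‖ ^ 2 ≤ w t)
    (h3 : ∀ t ∈ Icc x y, ∫ c in (0 : ℝ)..U, ‖PN N (t + c)‖ ^ 2 ≤ w t)
    (hxa : x ≤ a) (hab : a ≤ b) (hby : b ≤ y) :
    ∫⁻ ξ, ENNReal.ofReal (‖GR F α R N a b ξ‖ ^ 2) ∂(mP (Fin k ⊕ Fin k) U) ≤
      ENNReal.ofReal (4 ^ (2 * k) * K *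
        ∫ t in a..b, ‖R.indicator (AF F α) t‖ ^ 2 * w t ^ (2 * k - 1)) := by
  have hW0 : ∀ t, 0 ≤ w t := fun t => hU.le.trans (hwU t)
  have hv0 : Wb x y (R.indicator (AF F α)) := by
    obtain ⟨M, hM⟩ := (isCompact_Icc (a := x) (b := y)).exists_bound_of_continuousOn (AF_contR F α).continuousOn
    refine ⟨(AF_contR F α).measurable.indicator hR, max M 0, fun t ht => ?_⟩
    by_cases h : t ∈ R
    · rw [indicator_of_mem h]; exact (hM t ht).trans (le_max_left _ _)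
    · rw [indicator_of_notMem h, norm_zero]; exact le_max_right _ _
  have one_mean : ∀ t : ℝ, ∫ _c in (0 : ℝ)..U, ‖(1:ℂ)‖ ^ 2 ≤ w t := by
    intro t
    simpa using hwU t
  have key := rw_wb hRW (ι := Fin k ⊕ Fin k) (w := w) (f := fun i => hF F z i)
    (g := fun i => hF F (PN N) i) hv0 hxy hU hK0 hw hW0
    (fun i => hF_contR F z_cont i) (fun i => hF_contR F (PN_cont N) i)
    (fun i G hG => by
      rcases hF_cases F i with h | h
      · rw [h, h]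
        have hn : 0 ≤ K * ∫ t in x..y, ‖G t‖ ^ 2 :=
          mul_nonneg hK0 (intervalIntegral.integral_nonneg hxy fun t _ => by positivity)
        simpa using hn
      · rw [h, h]
        exact ker_conj i h1 G hG)
    (fun i t ht => by
      rcases hF_cases F i with h | h
      · rw [h]; exact one_mean t
      · rw [h]; simp only [fs_norm]; exact h2 t ht)
    (fun i t ht => by
      rcases hF_cases F i with h | h
      · rw [h]; exact one_mean t
      · rw [h]; simp only [fs_norm]; exact h3 t ht) hxa hab hby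
  rw [card_ii] at key
  refine le_trans (le_of_eq ?_) key
  congr 1
  funext ξ
  congr 3
  unfold GR
  congr 1
  funext t
  by_cases h : t ∈ R
  · rw [indicator_of_mem h, indicator_of_mem h, one_mul]
  · rw [indicator_of_notMem h, indicator_of_notMem h, zero_mul, zero_mul]

theorem pow_eps {k : ℕ} {ε T : ℝ} (hk : 1 ≤ k) (hε : 0 < ε) (hT : 1 ≤ T) :
    (T ^ (ε / (4 * k))) ^ (2 * k - 1) ≤ T ^ (ε / 2) := by
  have hT0 : 0 < T := by linarith
  have hk0 : (1 : ℝ) ≤ k := by exact_mod_cast hk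
  rw [← Real.rpow_natCast, ← Real.rpow_mul hT0.le]
  refine Real.rpow_le_rpow_of_exponent_le hT ?_
  have h2 : ((2 * k - 1 : ℕ) : ℝ) ≤ 2 * k := by
    have : 2 * k - 1 ≤ 2 * k := Nat.sub_le _ _
    exact_mod_cast this
  calc ε / (4 * k) * ((2 * k - 1 : ℕ) : ℝ) ≤ ε / (4 * k) * (2 * k) := by gcongr
    _ = ε / 2 := by field_simp; norm_num

/-- first part: the weight is constant -/
theorem part1 {F : Finset (Fin k)} {α : Fin k → ℝ} {R : Set ℝ} (hR : MeasurableSet R) {ε T U P Q K a b : ℝ}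
    (hk : 1 ≤ k) (hε : 0 < ε) (hT : 1 ≤ T) (hU : 0 ≤ U) (hP : 0 ≤ P) (hQ : 0 ≤ Q)
    (hK : K ≤ P * U * T ^ (ε / 2)) (hab : a ≤ b) :
    4 ^ (2 * k) * K * ∫ t in a..b, ‖R.indicator (AF F α) t‖ ^ 2 * (Q * T ^ (ε / (4 * k)) * U) ^ (2 * k - 1) ≤
      (4 ^ (2 * k) * P * Q ^ (2 * k - 1)) * T ^ ε * U ^ (2 * k) * ∫ t in a..b, ‖AF F α t‖ ^ 2 := by
  have hT0 : 0 < T := by linarith
  rw [intervalIntegral.integral_mul_const]
  have hc : Continuous fun t => ‖AF F α t‖ ^ 2 := (AF_contR F α).norm.pow 2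
  have hle : ∀ t, ‖R.indicator (AF F α) t‖ ^ 2 ≤ ‖AF F α t‖ ^ 2 := by
    intro t
    by_cases h : t ∈ R
    · rw [indicator_of_mem h]
    · rw [indicator_of_notMem h, norm_zero, zero_pow (by norm_num)]; positivity
  have hJ : ∫ t in a..b, ‖R.indicator (AF F α) t‖ ^ 2 ≤ ∫ t in a..b, ‖AF F α t‖ ^ 2 := by
    refine intervalIntegral.integral_mono_on hab ?_ (hc.intervalIntegrable _ _) fun t _ => hle t
    refine (hc.intervalIntegrable a b).mono_fun
      (((AF_contR F α).measurable.indicator hR).norm.pow_const 2).aestronglyMeasurable ?_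
    refine Eventually.of_forall fun t => ?_
    show ‖‖R.indicator (AF F α) t‖ ^ 2‖ ≤ ‖‖AF F α t‖ ^ 2‖
    rw [Real.norm_of_nonneg (by positivity), Real.norm_of_nonneg (by positivity)]
    exact hle t
  have hJ0 : 0 ≤ ∫ t in a..b, ‖R.indicator (AF F α) t‖ ^ 2 :=
    intervalIntegral.integral_nonneg hab fun t _ => by positivity
  have hJ00 : 0 ≤ ∫ t in a..b, ‖AF F α t‖ ^ 2 :=
    intervalIntegral.integral_nonneg hab fun t _ => by positivity
  have h1 := pow_eps hk hε hT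
  have h3 : T ^ ε = T ^ (ε / 2) * T ^ (ε / 2) := by
    rw [← Real.rpow_add hT0]; congr 1; ring
  have h4 : U ^ (2 * k) = U ^ (2 * k - 1) * U := by rw [← pow_succ]; congr 1; omega
  rw [mul_pow, mul_pow, h3, h4]
  calc 4 ^ (2 * k) * K * ((∫ t in a..b, ‖R.indicator (AF F α) t‖ ^ 2) *
        (Q ^ (2 * k - 1) * (T ^ (ε / (4 * k))) ^ (2 * k - 1) * U ^ (2 * k - 1)))
      ≤ 4 ^ (2 * k) * (P * U * T ^ (ε / 2)) * ((∫ t in a..b, ‖AF F α t‖ ^ 2) *
        (Q ^ (2 * k - 1) * T ^ (ε / 2) * U ^ (2 * k - 1))) := by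
        have : 0 ≤ P * U * T ^ (ε / 2) := by positivity
        gcongr
    _ = _ := by ring

/-- second part: the weight is the window mean -/
theorem part2 {F : Finset (Fin k)} {α : Fin k → ℝ} {κ η ε T U P Q K a b : ℝ} {w : ℝ → ℝ}
    (hk : 1 ≤ k) (hη : 0 < η) (hε : 0 < ε) (hT : 1 ≤ T) (hU : 0 < U) (hP : 0 ≤ P) (hQ : 0 ≤ Q)
    (hK : K ≤ P * T * T ^ (ε / 2)) (ha : 0 ≤ a) (hab : a ≤ b) (hb : b ≤ T) (hw0 : ∀ t, 0 ≤ w t)
    (hwR : ∀ t ∈ Rg F α κ η T, w t ≤ Q * T ^ (ε / (4 * k)) * (T ^ η * U)) :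
    4 ^ (2 * k) * K * ∫ t in a..b, ‖(Rg F α κ η T).indicator (AF F α) t‖ ^ 2 * w t ^ (2 * k - 1) ≤
      (4 ^ (2 * k) * P * Q ^ (2 * k - 1)) * T ^ (2 + 4 * k * η + ε) * U ^ (2 * k - 1) := by
  have hT0 : 0 < T := by linarith
  obtain ⟨B, hB⟩ : ∃ B : ℝ, B = (T ^ η) ^ (2 * k) * (Q * T ^ (ε / (4 * k)) * (T ^ η * U)) ^ (2 * k - 1) := ⟨_, rfl⟩
  have hB0 : 0 ≤ B := by rw [hB]; positivity
  have hTη : 1 ≤ T ^ η := Real.one_le_rpow hT hη.le
  have hpt : ∀ t, ‖(Rg F α κ η T).indicator (AF F α) t‖ ^ 2 * w t ^ (2 * k - 1) ≤ B := by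
    intro t
    by_cases h : t ∈ Rg F α κ η T
    · rw [indicator_of_mem h, hB]
      have h1 := hwR t h
      have h2 : ‖AF F α t‖ ≤ (T ^ η) ^ k := by
        unfold AF
        rw [norm_prod]
        calc ∏ j ∈ F, ‖z (t + α j)‖ ≤ ∏ _j ∈ F, T ^ η :=
              Finset.prod_le_prod (fun _ _ => norm_nonneg _) fun j hj => h.2.2.1 j hj
          _ = (T ^ η) ^ F.card := by rw [Finset.prod_const]
          _ ≤ (T ^ η) ^ k := pow_le_pow_right₀ hTη (by simpa using F.card_le_univ)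
      have h3 : ‖AF F α t‖ ^ 2 ≤ (T ^ η) ^ (2 * k) := by
        calc ‖AF F α t‖ ^ 2 ≤ ((T ^ η) ^ k) ^ 2 := pow_le_pow_left₀ (norm_nonneg _) h2 2
          _ = (T ^ η) ^ (2 * k) := by rw [← pow_mul]; congr 1; ring
      have := hw0 t
      gcongr
    · rw [indicator_of_notMem h, norm_zero]
      simpa using hB0
  have hJ : ∫ t in a..b, ‖(Rg F α κ η T).indicator (AF F α) t‖ ^ 2 * w t ^ (2 * k - 1) ≤ T * B := by
    calc _ ≤ ‖∫ t in a..b, ‖(Rg F α κ η T).indicator (AF F α) t‖ ^ 2 * w t ^ (2 * k - 1)‖ := le_abs_self _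
      _ ≤ B * |b - a| := intervalIntegral.norm_integral_le_of_norm_le_const fun t _ => by
          rw [Real.norm_of_nonneg (mul_nonneg (by positivity) (pow_nonneg (hw0 t) _))]
          exact hpt t
      _ ≤ B * T := by
          rw [abs_of_nonneg (by linarith)]
          gcongr
          linarith
      _ = T * B := mul_comm _ _
  have hJ0 : 0 ≤ ∫ t in a..b, ‖(Rg F α κ η T).indicator (AF F α) t‖ ^ 2 * w t ^ (2 * k - 1) :=
    intervalIntegral.integral_nonneg hab fun t _ => mul_nonneg (by positivity) (pow_nonneg (hw0 t) _)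
  have h1 := pow_eps hk hε hT
  have h5 : (T ^ η) ^ (2 * k) * (T ^ η) ^ (2 * k - 1) ≤ T ^ (4 * k * η) := by
    rw [← pow_add, ← Real.rpow_natCast, ← Real.rpow_mul hT0.le]
    refine Real.rpow_le_rpow_of_exponent_le hT ?_
    have h2 : ((2 * k + (2 * k - 1) : ℕ) : ℝ) ≤ 4 * k := by
      have : 2 * k + (2 * k - 1) ≤ 4 * k := by omega
      exact_mod_cast this
    calc η * ((2 * k + (2 * k - 1) : ℕ) : ℝ) ≤ η * (4 * k) := by gcongr
      _ = _ := by ring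
  have h6 : T ^ (2 + 4 * k * η + ε) = T * T * T ^ (4 * k * η) * (T ^ (ε / 2) * T ^ (ε / 2)) := by
    rw [← Real.rpow_add hT0]
    have : T * T = T ^ (2:ℝ) := by rw [Real.rpow_two, sq]
    rw [this, ← Real.rpow_add hT0, ← Real.rpow_add hT0]
    congr 1; ring
  rw [h6]
  calc 4 ^ (2 * k) * K * ∫ t in a..b, ‖(Rg F α κ η T).indicator (AF F α) t‖ ^ 2 * w t ^ (2 * k - 1)
      ≤ 4 ^ (2 * k) * (P * T * T ^ (ε / 2)) * (T * B) := by gcongr
    _ = 4 ^ (2 * k) * P * Q ^ (2 * k - 1) * (T * T * ((T ^ η) ^ (2 * k) * (T ^ η) ^ (2 * k - 1)) *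
          (T ^ (ε / 2) * (T ^ (ε / (4 * k))) ^ (2 * k - 1))) * U ^ (2 * k - 1) := by
        rw [hB, mul_pow, mul_pow, mul_pow]; ring
    _ ≤ 4 ^ (2 * k) * P * Q ^ (2 * k - 1) * (T * T * T ^ (4 * k * η) * (T ^ (ε / 2) * T ^ (ε / 2))) *
          U ^ (2 * k - 1) := by gcongr
    _ = _ := by ring

/-- **RPR** -/
theorem t_RPR (hKD : Pool.Agent.Z72.SH.S_KD) (hRW : Pool.Agent.Z72.SH.S_RW)
    (hWI : Pool.Agent.N879.PU.S_WINU) (hEMN : Pool.Agent.Z72.SQ.S_EMN) (hSM : Pool.Agent.TH612.GS.S_SM) : S_RPR := by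
  intro k F α κ η ε hk hκ hη hε
  have hk0 : (1 : ℝ) ≤ k := by exact_mod_cast hk
  obtain ⟨δ, hδ⟩ : ∃ δ : ℝ, δ = ε / (4 * k) := ⟨_, rfl⟩
  have hδ0 : 0 < δ := by rw [hδ]; positivity
  obtain ⟨C1, A1, hC1, hkd⟩ := hKD
  obtain ⟨Cw, hCw, hwin⟩ := hWI
  obtain ⟨CE, hCE, hemn⟩ := hEMN
  obtain ⟨Cs, T₀, hCs, hT₀, hsm⟩ := hSM
  obtain ⟨L2, hL2, hl2⟩ := log_pow_bound 2 hδ0
  obtain ⟨L1, hL1, hl1⟩ := log_pow_bound 1 hδ0
  obtain ⟨LA, hLA, hlA⟩ := log_pow_bound A1 (half_pos hε)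
  obtain ⟨LE, hLE, hlE⟩ := log_pow_bound 1 (half_pos hε)
  -- constants
  obtain ⟨Q1, hQ1⟩ : ∃ Q1 : ℝ, Q1 = Cs * T₀ * (L1 * T₀ ^ δ) + Cw * 16 * (L2 * 16 ^ δ) + 1 := ⟨_, rfl⟩
  obtain ⟨Q2, hQ2⟩ : ∃ Q2 : ℝ, Q2 = Cw * L2 + 1 := ⟨_, rfl⟩
  obtain ⟨P1, hP1⟩ : ∃ P1 : ℝ, P1 = CE ^ 2 * 16 * (LE * 2 ^ (ε / 2)) := ⟨_, rfl⟩
  obtain ⟨P2, hP2⟩ : ∃ P2 : ℝ, P2 = C1 * LA * 3 := ⟨_, rfl⟩
  have hT₀0 : 0 < T₀ := by linarith
  have hQ1one : 1 ≤ Q1 := by
    rw [hQ1]
    have : 0 < Cs * T₀ * (L1 * T₀ ^ δ) + Cw * 16 * (L2 * 16 ^ δ) := by positivity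
    linarith
  have hQ2one : 1 ≤ Q2 := by
    rw [hQ2]
    have : 0 < Cw * L2 := by positivity
    linarith
  have hQ1p : 0 < Q1 := by linarith
  have hQ2p : 0 < Q2 := by linarith
  have hP1p : 0 < P1 := by rw [hP1]; positivity
  have hP2p : 0 < P2 := by rw [hP2]; positivity
  refine ⟨4 ^ (2 * k) * P1 * Q1 ^ (2 * k - 1) + 4 ^ (2 * k) * P2 * Q2 ^ (2 * k - 1), by positivity,
    fun T U hU hUT hTU => ?_⟩
  have hU0 : 0 < U := by linarith
  have hT0 : 0 < T := by linarith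
  have hT1 : 1 ≤ T := by linarith
  have hU1 : 1 ≤ U := by linarith
  have hTδ : 0 < T ^ δ := by positivity
  have hRm : MeasurableSet (Rg F α κ η T) := (Rg_closedR F α κ η T).measurableSet
  have hc1 : 4 ^ (2 * k) * P1 * Q1 ^ (2 * k - 1) ≤
      4 ^ (2 * k) * P1 * Q1 ^ (2 * k - 1) + 4 ^ (2 * k) * P2 * Q2 ^ (2 * k - 1) := by
    have : 0 ≤ 4 ^ (2 * k) * P2 * Q2 ^ (2 * k - 1) := by positivity
    linarith
  have hc2 : 4 ^ (2 * k) * P2 * Q2 ^ (2 * k - 1) ≤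
      4 ^ (2 * k) * P1 * Q1 ^ (2 * k - 1) + 4 ^ (2 * k) * P2 * Q2 ^ (2 * k - 1) := by
    have : 0 ≤ 4 ^ (2 * k) * P1 * Q1 ^ (2 * k - 1) := by positivity
    linarith
  constructor
  · intro N hN1 hN2 b hab hb
    have hN0 : 1 ≤ N := by
      have : (0 : ℝ) < N := by linarith
      exact_mod_cast this
    have hT'' : 1 ≤ T ^ δ := Real.one_le_rpow hT1 hδ0.le
    have hQU : U ≤ Q1 * T ^ δ * U := by
      have : 1 ≤ Q1 * T ^ δ := by nlinarith
      nlinarith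
    have hKb : (CE * (N : ℝ) ^ (1 / 2 : ℝ)) ^ 2 * Real.log (1 + U) ≤ P1 * U * T ^ (ε / 2) := by
      have e1 : (CE * (N : ℝ) ^ (1 / 2 : ℝ)) ^ 2 = CE ^ 2 * N := by
        rw [mul_pow]
        congr 1
        rw [← Real.rpow_natCast, ← Real.rpow_mul (Nat.cast_nonneg N)]
        norm_num
      rw [e1]
      have h1 := hlE (2 * U) (by linarith)
      rw [pow_one] at h1
      have h2 : Real.log (1 + U) ≤ 1 + Real.log (2 * U) := by
        have : Real.log (1 + U) ≤ Real.log (2 * U) := Real.log_le_log (by linarith) (by linarith)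
        linarith
      have h3 : (2 * U) ^ (ε / 2) ≤ 2 ^ (ε / 2) * T ^ (ε / 2) := by
        rw [← Real.mul_rpow (by norm_num) hT0.le]
        gcongr
      have h4 : 0 ≤ Real.log (1 + U) := Real.log_nonneg (by linarith)
      rw [hP1]
      calc CE ^ 2 * N * Real.log (1 + U) ≤ CE ^ 2 * (16 * U) * (LE * (2 ^ (ε / 2) * T ^ (ε / 2))) := by
            have h6 : (N : ℝ) ≤ 16 * U := by linarith
            have h7 : Real.log (1 + U) ≤ LE * (2 ^ (ε / 2) * T ^ (ε / 2)) :=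
              h2.trans (h1.trans (by gcongr))
            gcongr
        _ = _ := by ring
    have hk1 : ∀ G : ℝ → ℂ, Wb 0 U G → ∫ c in (0 : ℝ)..U, ‖∫ t in (0:ℝ)..U, G t * (z (t + c) - PN N (t + c))‖ ^ 2 ≤
        ((CE * (N : ℝ) ^ (1 / 2 : ℝ)) ^ 2 * Real.log (1 + U)) * ∫ t in (0:ℝ)..U, ‖G t‖ ^ 2 := by
      intro G hG
      obtain ⟨hm, M, hM⟩ := hG
      have hb' : ∀ u, 0 ≤ u → u ≤ 2 * U → ‖z u - PN N u‖ ≤ CE * (N : ℝ) ^ (1 / 2 : ℝ) / (1 + u) :=
        fun u hu1 hu2 => hemn N u hN0 hu1 (by linarith)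
      exact op1 (h := fun u => z u - PN N u) (z_cont.sub (PN_cont N)) hU0.le hb' hm hM
    have hz1 : ∀ t ∈ Icc 0 U, ∫ c in (0 : ℝ)..U, ‖z (t + c)‖ ^ 2 ≤ Q1 * T ^ δ * U := by
      intro t ht
      rw [intervalIntegral.integral_comp_add_left (fun u => ‖z u‖ ^ 2) t, add_zero]
      have hzc : Continuous fun u : ℝ => ‖z u‖ ^ 2 := z_cont.norm.pow 2
      have hpos : ∀ u, 0 ≤ ‖z u‖ ^ 2 := fun u => by positivity
      obtain ⟨M, hM⟩ : ∃ M, M = max U T₀ := ⟨_, rfl⟩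
      have hM1 : T₀ ≤ M := by rw [hM]; exact le_max_right _ _
      have hM2 : U ≤ M := by rw [hM]; exact le_max_left _ _
      have hM3 : M ≤ T₀ * U := by
        rw [hM]
        refine max_le ?_ ?_
        · nlinarith
        · nlinarith
      have hM0 : 0 < M := by linarith
      have h1 : ∫ u in t..(t + U), ‖z u‖ ^ 2 ≤ ∫ u in (0:ℝ)..(2 * M), ‖z u‖ ^ 2 := by
        refine intervalIntegral.integral_mono_interval ht.1 (by linarith) (by linarith [ht.2]) ?_ ?_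
        · exact Eventually.of_forall fun u => hpos u
        · exact hzc.intervalIntegrable _ _
      have h2 := hsm M hM1
      have h3 : Real.log M ≤ L1 * (T₀ ^ δ * T ^ δ) := by
        have h4 := hl1 (T₀ * U) (by nlinarith)
        rw [pow_one] at h4
        have h5 : Real.log M ≤ Real.log (T₀ * U) := Real.log_le_log hM0 hM3
        have h6 : (T₀ * U) ^ δ ≤ T₀ ^ δ * T ^ δ := by
          rw [← Real.mul_rpow hT₀0.le hT0.le]
          gcongr
        have h7 : L1 * (T₀ * U) ^ δ ≤ L1 * (T₀ ^ δ * T ^ δ) := by gcongr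
        linarith
      have h8 : 0 ≤ Real.log M := Real.log_nonneg (by linarith)
      calc ∫ u in t..(t + U), ‖z u‖ ^ 2 ≤ Cs * M * Real.log M := h1.trans h2
        _ ≤ Cs * (T₀ * U) * (L1 * (T₀ ^ δ * T ^ δ)) := by gcongr
        _ = Cs * T₀ * (L1 * T₀ ^ δ) * T ^ δ * U := by ring
        _ ≤ Q1 * T ^ δ * U := by
            have : Cs * T₀ * (L1 * T₀ ^ δ) ≤ Q1 := by
              rw [hQ1]
              have : 0 ≤ Cw * 16 * (L2 * 16 ^ δ) := by positivity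
              linarith
            gcongr
    have hp1 : ∀ t ∈ Icc 0 U, ∫ c in (0 : ℝ)..U, ‖PN N (t + c)‖ ^ 2 ≤ Q1 * T ^ δ * U := by
      intro t ht
      have hc : Continuous fun c : ℝ => ‖PN N (t + c)‖ ^ 2 := ((PN_cont N).comp (by fun_prop)).norm.pow 2
      have h1 : ∫ c in (0 : ℝ)..U, ‖PN N (t + c)‖ ^ 2 ≤ ∫ c in (0 : ℝ)..(16 * U), ‖PN N (t + c)‖ ^ 2 := by
        refine intervalIntegral.integral_mono_interval le_rfl hU0.le (by linarith) ?_ ?_
        · exact Eventually.of_forall fun u => by positivity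
        · exact hc.intervalIntegrable _ _
      have h2 := hwin (16 * U) t N (by linarith) hN0 hN2
      have h3 := hl2 (16 * U) (by linarith)
      have h4 : (16 * U) ^ δ ≤ 16 ^ δ * T ^ δ := by
        rw [← Real.mul_rpow (by norm_num) hT0.le]
        gcongr
      have h5 : (1 + Real.log N) ^ 2 ≤ (1 + Real.log (16 * U)) ^ 2 := by
        have h6 : Real.log N ≤ Real.log (16 * U) := Real.log_le_log (by exact_mod_cast (by omega : 0 < N)) hN2
        have h7 : 0 ≤ Real.log N := Real.log_nonneg (by exact_mod_cast hN0)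
        gcongr
      calc ∫ c in (0 : ℝ)..U, ‖PN N (t + c)‖ ^ 2 ≤ Cw * (16 * U) * (1 + Real.log N) ^ 2 := h1.trans h2
        _ ≤ Cw * (16 * U) * (L2 * (16 ^ δ * T ^ δ)) := by
            have : (1 + Real.log N) ^ 2 ≤ L2 * (16 ^ δ * T ^ δ) := h5.trans (h3.trans (by gcongr))
            gcongr
        _ = Cw * 16 * (L2 * 16 ^ δ) * T ^ δ * U := by ring
        _ ≤ Q1 * T ^ δ * U := by
            have : Cw * 16 * (L2 * 16 ^ δ) ≤ Q1 := by
              rw [hQ1]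
              have : 0 ≤ Cs * T₀ * (L1 * T₀ ^ δ) := by positivity
              linarith
            gcongr
    have hlogU := Real.log_nonneg (by linarith : (1 : ℝ) ≤ 1 + U)
    refine (rpr_core hRW (N := N) F α hRm (U := U) (x := 0) (y := U) (a := 0) (b := b)
      (w := fun _ => Q1 * T ^ δ * U)
      (K := (CE * (N : ℝ) ^ (1 / 2 : ℝ)) ^ 2 * Real.log (1 + U)) continuous_const (fun _ => hQU) hU0 (by positivity)
      hU0.le hk1 hz1 hp1 le_rfl hab hb).trans (ENNReal.ofReal_le_ofReal ?_)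
    have key := part1 (F := F) (α := α) hRm hk hε hT1 hU0.le hP1p.le hQ1p.le hKb hab
    rw [← hδ] at key
    refine key.trans ?_
    have hJ0 : 0 ≤ ∫ t in (0:ℝ)..b, ‖AF F α t‖ ^ 2 :=
      intervalIntegral.integral_nonneg hab fun t _ => by positivity
    gcongr
  · intro N hN1 hN2 b hab hb
    have hNr : (0 : ℝ) < N := by linarith
    have hN0 : 1 ≤ N := by exact_mod_cast hNr
    have hT'' : 1 ≤ T ^ δ := Real.one_le_rpow hT1 hδ0.le
    have hTη : 1 ≤ T ^ η := Real.one_le_rpow hT1 hη.le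
    have hQU : U ≤ Q2 * T ^ δ * U := by
      have : 1 ≤ Q2 * T ^ δ := by nlinarith
      nlinarith
    have hKb : C1 * Real.log T ^ A1 * (T * U / N + T) ≤ P2 * T * T ^ (ε / 2) := by
      have h1 := hlA T hT1
      have h0 : 0 ≤ Real.log T := Real.log_nonneg hT1
      have h2 : Real.log T ^ A1 ≤ (1 + Real.log T) ^ A1 := pow_le_pow_left₀ h0 (by linarith) A1
      have h3 : T * U / N ≤ 2 * T := by
        rw [div_le_iff₀ hNr]
        nlinarith
      rw [hP2]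
      calc C1 * Real.log T ^ A1 * (T * U / N + T) ≤ C1 * (LA * T ^ (ε / 2)) * (2 * T + T) := by
            have h6 : Real.log T ^ A1 ≤ LA * T ^ (ε / 2) := h2.trans h1
            gcongr
        _ = _ := by ring
    have hp2 : ∀ t : ℝ, ∫ c in (0 : ℝ)..U, ‖PN N (t + c)‖ ^ 2 ≤ Q2 * T ^ δ * U := by
      intro t
      have h2 := hwin U t N hU1 hN0 hN2
      have h3 := hl2 T hT1
      have h5 : (1 + Real.log N) ^ 2 ≤ (1 + Real.log T) ^ 2 := by
        have h6 : Real.log N ≤ Real.log T := Real.log_le_log hNr (by linarith)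
        have h7 : 0 ≤ Real.log N := Real.log_nonneg (by exact_mod_cast hN0)
        gcongr
      calc ∫ c in (0 : ℝ)..U, ‖PN N (t + c)‖ ^ 2 ≤ Cw * U * (1 + Real.log N) ^ 2 := h2
        _ ≤ Cw * U * (L2 * T ^ δ) := by
            have : (1 + Real.log N) ^ 2 ≤ L2 * T ^ δ := h5.trans h3
            gcongr
        _ = Cw * L2 * T ^ δ * U := by ring
        _ ≤ Q2 * T ^ δ * U := by
            have : Cw * L2 ≤ Q2 := by
              rw [hQ2]
              linarith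
            gcongr
    have hlogT : 0 ≤ Real.log T := Real.log_nonneg hT1
    refine (rpr_core hRW (N := N) F α hRm (U := U) (x := U) (y := T) (a := U) (b := b)
      (w := fun t => max (∫ c in (0 : ℝ)..U, ‖z (t + c)‖ ^ 2) (Q2 * T ^ δ * U))
      (K := C1 * Real.log T ^ A1 * (T * U / N + T)) ((win_cont U).max continuous_const)
      (fun _ => hQU.trans (le_max_right _ _)) hU0 (by positivity) hUT
      (fun G hG => hkd T U N G hU hUT hN0 hN2 hG) (fun t _ => le_max_left _ _)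
      (fun t _ => (hp2 t).trans (le_max_right _ _)) le_rfl hab hb).trans (ENNReal.ofReal_le_ofReal ?_)
    refine (part2 (F := F) (α := α) (κ := κ) (η := η) (ε := ε) (T := T) (U := U) (P := P2) (Q := Q2)
      hk hη hε hT1 hU0 hP2p.le hQ2p.le hKb hU0.le hab hb
      (fun t => (by positivity : (0:ℝ) ≤ Q2 * T ^ δ * U).trans (le_max_right _ _)) ?_).trans ?_
    · intro t ht
      rw [← hδ]
      refine max_le ?_ ?_
      · have h1 := ht.2.2.2 U hTU hUT
        calc ∫ c in (0 : ℝ)..U, ‖z (t + c)‖ ^ 2 ≤ 1 * (T ^ η * U) := by rw [one_mul]; exact h1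
          _ ≤ Q2 * T ^ δ * (T ^ η * U) := by
              have : 1 ≤ Q2 * T ^ δ := by nlinarith
              gcongr
      · have : U ≤ T ^ η * U := by nlinarith
        gcongr
    · gcongr

end

end Pool.Agent.Z72.SR
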