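import Pool.Agent.Z72.SR.As2
import Pool.Agent.Z72.SR.Rgm
import Pool.Agent.Z72.SR.Ea
import Pool.Agent.Z72.SR.Irr
import Pool.Agent.Z72.SR.Rpr
import Pool.Agent.Z72.SF.All

set_option autoImplicit false

/-!
Project SR: all parts together.
-/

namespace Pool.Agent.Z72.SR

open Pool.Agent.Z72.SF

theorem final : S_MUR := t_MUR (t_RGM t_A2F) (t_EA (t_RGM t_A2F) t_A2F)
  (t_RPR Pool.Agent.Z72.SH.t_KD Pool.Agent.Z72.SH.t_RW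
    (Pool.Agent.N879.PU.t_WINU Pool.Agent.N879.PU.t_MVS) Pool.Agent.Z72.SQ.t_EMN Pool.Agent.TH570.GS.t_SM)
  (t_IRR (Pool.Agent.N879.PU.t_WINU Pool.Agent.N879.PU.t_MVS))
  (t_ODF Pool.Agent.Z72.SQ.t_MM (t_RNF t_ZC) t_NTF Pool.Agent.TH751.GF.t_MVB t_A2F)
  (t_DGF t_SAF (t_DTF Pool.Agent.Z72.SQ.t_MM Pool.Agent.Z72.SQ.t_MT)) t_SWF
  (t_ZAF (Pool.Agent.TH811.GS.t_ONE Pool.Agent.TH928.GS.t_MV)) t_NAF t_A2F Pool.Agent.TH612.GS.t_INV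
  (fun _ F α κ η T => Rg_closed F α κ η T)

end Pool.Agent.Z72.SR
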