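import Pool.Agent.Z72.SR.Stm
import Pool.Agent.Z72.SF.As2

set_option autoImplicit false

/-! Project SR: assembly, general lemmas. -/

namespace Pool.Agent.Z72.SR

open Complex Filter Topology MeasureTheory Set
open Pool.Agent.TH612.GS (z zN PN mP zr Sep DD z_cont PN_cont zp IG Pk inv_le_one DD_eq Zg_fz
  Zg_cont IG_cont GG_cont_t GG_cont_2 norm_GG S_INV tup ch wt)
open Pool.Agent.TH612.CF (Zg GG Qs zab FH_cont zeta_cont one_ne)
open Pool.Agent.Z72.SF (AF mx hF ee inF SepF Sf AF_cont hF_cont prodh_cont prodh_cont_t Zg_mx Oi Oi_cont Sf_cont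
  mx_cont)

noncomputable section

variable {k : ℕ}

lemma int_meas {R : Set ℝ} (hR : MeasurableSet R) {g : (Fin k ⊕ Fin k → ℝ) → ℝ → ℂ}
    (hg : Continuous fun p : (Fin k ⊕ Fin k → ℝ) × ℝ => g p.1 p.2) {a b : ℝ} (hab : a ≤ b) :
    Measurable fun ξ : Fin k ⊕ Fin k → ℝ => ∫ t in a..b, R.indicator (fun _ => (1:ℂ)) t * g ξ t := by
  have h1 : Measurable fun p : (Fin k ⊕ Fin k → ℝ) × ℝ => R.indicator (fun _ => (1:ℂ)) p.2 * g p.1 p.2 :=
    ((measurable_const.indicator hR).comp measurable_snd).mul hg.measurable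
  have h2 := h1.stronglyMeasurable.integral_prod_right' (ν := volume.restrict (Ioc a b))
  simp only [intervalIntegral.integral_of_le hab]
  exact h2.measurable

lemma ind_int {R : Set ℝ} (hR : MeasurableSet R) {g : ℝ → ℂ} (hg : Continuous g) (a b : ℝ) :
    IntervalIntegrable (fun t => R.indicator (fun _ => (1:ℂ)) t * g t) volume a b := by
  have e : (fun t => R.indicator (fun _ => (1:ℂ)) t * g t) = R.indicator g := by
    funext t
    by_cases h : t ∈ R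
    · rw [indicator_of_mem h, indicator_of_mem h, one_mul]
    · rw [indicator_of_notMem h, indicator_of_notMem h, zero_mul]
  rw [e]
  have h := hg.intervalIntegrable (μ := volume) a b
  exact ⟨h.1.indicator hR, h.2.indicator hR⟩

lemma ind_add (R : Set ℝ) (w : ℂ) (t : ℝ) :
    R.indicator (fun _ => (1:ℂ)) t * w + Rᶜ.indicator (fun _ => (1:ℂ)) t * w = w := by
  by_cases h : t ∈ R
  · rw [indicator_of_mem h, indicator_of_notMem (by simpa using h)]; ring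
  · rw [indicator_of_notMem h, indicator_of_mem (by simpa using h)]; ring

lemma GR_meas (F : Finset (Fin k)) (α : Fin k → ℝ) {R : Set ℝ} (hR : MeasurableSet R) (N : ℕ) {a b : ℝ}
    (hab : a ≤ b) : Measurable (GR F α R N a b) := by
  unfold GR
  exact int_meas hR (g := fun ξ t => AF F α t * (∏ i, hF F z i (t + ξ i) - ∏ i, hF F (PN N) i (t + ξ i)))
    (((AF_cont F α).comp continuous_snd).mul ((prodh_cont F z_cont).sub (prodh_cont F (PN_cont N)))) hab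

lemma IR_meas (F : Finset (Fin k)) (α : Fin k → ℝ) {R : Set ℝ} (hR : MeasurableSet R) (N : ℕ) {a b : ℝ}
    (hab : a ≤ b) : Measurable (IR F α R N a b) := by
  unfold IR
  exact int_meas hR.compl (g := fun ξ t => AF F α t * ∏ i, hF F (PN N) i (t + ξ i))
    (((AF_cont F α).comp continuous_snd).mul (prodh_cont F (PN_cont N))) hab

lemma pieceR (F : Finset (Fin k)) (α : Fin k → ℝ) {R : Set ℝ} (hR : MeasurableSet R) (N : ℕ) {a b : ℝ} (hab : a ≤ b)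
    (ξ : Fin k ⊕ Fin k → ℝ) :
    ‖(∫ t in a..b, R.indicator (fun _ => (1:ℂ)) t * Zg (mx F α ξ) t) - ((b - a : ℝ) : ℂ) * zr (mx F α ξ)‖ ≤
      ‖GR F α R N a b ξ‖ + ‖IR F α R N a b ξ‖ + ‖Oi F α N a b ξ‖ + (b - a) * ‖Sf F α N ξ - zr (mx F α ξ)‖ := by
  have c2 : Continuous fun t : ℝ => AF F α t * ∏ i, hF F (PN N) i (t + ξ i) :=
    (AF_cont F α).mul (prodh_cont_t F (PN_cont N) ξ)
  have c3 : Continuous fun t : ℝ => AF F α t * (∏ i, hF F z i (t + ξ i) - ∏ i, hF F (PN N) i (t + ξ i)) :=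
    (AF_cont F α).mul ((prodh_cont_t F z_cont ξ).sub (prodh_cont_t F (PN_cont N) ξ))
  obtain ⟨I1, hI1⟩ : ∃ I1 : ℂ, I1 = ∫ t in a..b, R.indicator (fun _ => (1:ℂ)) t *
    (AF F α t * ∏ i, hF F (PN N) i (t + ξ i)) := ⟨_, rfl⟩
  have e1 : (∫ t in a..b, R.indicator (fun _ => (1:ℂ)) t * Zg (mx F α ξ) t) = GR F α R N a b ξ + I1 := by
    unfold GR
    rw [hI1, ← intervalIntegral.integral_add (ind_int hR c3 a b) (ind_int hR c2 a b)]
    refine intervalIntegral.integral_congr fun t _ => ?_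
    simp only [Zg_mx]; ring
  have e2 : I1 + IR F α R N a b ξ = ∫ t in a..b, AF F α t * ∏ i, hF F (PN N) i (t + ξ i) := by
    unfold IR
    rw [hI1, ← intervalIntegral.integral_add (ind_int hR c2 a b) (ind_int hR.compl c2 a b)]
    exact intervalIntegral.integral_congr fun t _ => ind_add R _ t
  have e3 : (∫ t in a..b, R.indicator (fun _ => (1:ℂ)) t * Zg (mx F α ξ) t) - ((b - a : ℝ) : ℂ) * zr (mx F α ξ) =
      GR F α R N a b ξ - IR F α R N a b ξ + Oi F α N a b ξ +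
        ((b - a : ℝ) : ℂ) * (Sf F α N ξ - zr (mx F α ξ)) := by
    have e4 : Oi F α N a b ξ = I1 + IR F α R N a b ξ - ((b - a : ℝ) : ℂ) * Sf F α N ξ := by
      unfold Oi; rw [e2]
    rw [e1, e4]; ring
  rw [e3]
  have h1 : ‖((b - a : ℝ) : ℂ) * (Sf F α N ξ - zr (mx F α ξ))‖ = (b - a) * ‖Sf F α N ξ - zr (mx F α ξ)‖ := by
    rw [norm_mul, Complex.norm_real, Real.norm_of_nonneg (by linarith)]
  rw [← h1]
  exact (norm_add_le _ _).trans (add_le_add ((norm_add_le _ _).trans (add_le_add (norm_sub_le _ _) le_rfl)) le_rfl)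

lemma DR_bd (hINV : S_INV) {R : Set ℝ} (hR : MeasurableSet R) {S Q : ℝ} {γ : Fin k ⊕ Fin k → ℝ}
    (hQ : ∀ π : Equiv.Perm (Fin k ⊕ Fin k), ‖zp γ π‖ ≤ Q) :
    ‖DR R S γ‖ ≤ ‖(∫ t in (0:ℝ)..S, R.indicator (fun _ => (1:ℂ)) t * Zg γ t) - S * zr γ‖ +
      Q * ∑ π ∈ (Pk k)ᶜ, ‖IG S γ π‖ := by
  have e0 : (∫ t in (0:ℝ)..S, Zg γ t) = (∫ t in (0:ℝ)..S, R.indicator (fun _ => (1:ℂ)) t * Zg γ t) +
      ∫ t in (0:ℝ)..S, Rᶜ.indicator (fun _ => (1:ℂ)) t * Zg γ t := by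
    rw [← intervalIntegral.integral_add (ind_int hR (Zg_cont γ) 0 S) (ind_int hR.compl (Zg_cont γ) 0 S)]
    exact intervalIntegral.integral_congr fun t _ => (ind_add R _ t).symm
  have e1 : DR R S γ = ((∫ t in (0:ℝ)..S, R.indicator (fun _ => (1:ℂ)) t * Zg γ t) - S * zr γ) -
      ((Nat.factorial k : ℂ) ^ 2)⁻¹ * ∑ π ∈ (Pk k)ᶜ, IG S γ π * zp γ π := by
    unfold DR
    rw [DD_eq hINV, e0]; ring
  rw [e1]
  refine (norm_sub_le _ _).trans (add_le_add le_rfl ?_)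
  rw [norm_mul]
  calc _ ≤ 1 * ‖∑ π ∈ (Pk k)ᶜ, IG S γ π * zp γ π‖ := by
        gcongr
        exact inv_le_one
    _ ≤ 1 * ∑ π ∈ (Pk k)ᶜ, ‖IG S γ π * zp γ π‖ := by
        gcongr
        exact norm_sum_le _ _
    _ ≤ 1 * ∑ π ∈ (Pk k)ᶜ, ‖IG S γ π‖ * Q := by
        gcongr with π hπ
        rw [norm_mul]
        gcongr
        exact hQ π
    _ = _ := by rw [one_mul, ← Finset.sum_mul, mul_comm]

/-- the pieces of the exceptional set -/
lemma Bad_subR (hINV : S_INV) {F : Finset (Fin k)} {α : Fin k → ℝ} {R : Set ℝ} (hR : MeasurableSet R)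
    {T U S lam Q Λ : ℝ} {N₁ N₂ : ℕ} (hU : 0 ≤ U)
    (hUT : U ≤ T) (hS0 : 0 ≤ S) (hST : S ≤ T) (hT : 0 < T) (hlam : 0 ≤ lam) (hQ0 : 0 ≤ Q)
    (hQ : ∀ ξ ∈ SepF F α U, ∀ π : Equiv.Perm (Fin k ⊕ Fin k), ‖zp (mx F α ξ) π‖ ≤ Q)
    (hΛ : 8 * lam + Q * ((Fintype.card (Equiv.Perm (Fin k ⊕ Fin k)) : ℝ) * lam) ≤ Λ) :
    BadR F α R U S Λ ⊆ (SepF F α U)ᶜ ∪ {ξ | lam < ‖GR F α R N₁ 0 (min S U) ξ‖} ∪
      {ξ | lam < ‖GR F α R N₂ U (max S U) ξ‖} ∪
      {ξ | lam < ‖Oi F α N₁ 0 (min S U) ξ‖} ∪ {ξ | lam < ‖Oi F α N₂ U (max S U) ξ‖} ∪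
      (SepF F α U ∩ {ξ | lam / T < ‖Sf F α N₁ ξ - zr (mx F α ξ)‖}) ∪
      (SepF F α U ∩ {ξ | lam / T < ‖Sf F α N₂ ξ - zr (mx F α ξ)‖}) ∪
      (⋃ π ∈ (Pk k)ᶜ, {ξ | lam < ‖IG S (mx F α ξ) π‖}) ∪ {ξ | lam < ‖IR F α R N₁ 0 (min S U) ξ‖} ∪
      {ξ | lam < ‖IR F α R N₂ U (max S U) ξ‖} := by
  classical
  intro ξ hξ
  by_contra hcon
  simp only [mem_union, not_or, mem_iUnion, not_exists, mem_compl_iff, not_not, mem_ofPred_eq, not_lt,
    mem_inter_iff, not_and] at hcon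
  obtain ⟨⟨⟨⟨⟨⟨⟨⟨⟨g1, g2⟩, g3⟩, g4⟩, g5⟩, g6⟩, g7⟩, g8⟩, g9⟩, g10⟩ := hcon
  obtain ⟨hcube, hS⟩ := hξ
  have b1 : (min S U - 0) * ‖Sf F α N₁ ξ - zr (mx F α ξ)‖ ≤ lam := by
    calc (min S U - 0) * ‖Sf F α N₁ ξ - zr (mx F α ξ)‖ ≤ T * (lam / T) := by
          have := g6 g1
          have h2 : min S U - 0 ≤ T := by rw [sub_zero]; exact (min_le_left _ _).trans hST
          exact mul_le_mul h2 this (norm_nonneg _) hT.le
      _ = lam := by field_simp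
  have b2 : (max S U - U) * ‖Sf F α N₂ ξ - zr (mx F α ξ)‖ ≤ lam := by
    calc (max S U - U) * ‖Sf F α N₂ ξ - zr (mx F α ξ)‖ ≤ T * (lam / T) := by
          have := g7 g1
          have h2 : max S U - U ≤ T := by
            have : max S U ≤ T := max_le hST hUT
            linarith
          exact mul_le_mul h2 this (norm_nonneg _) hT.le
      _ = lam := by field_simp
  have p1 := pieceR F α hR N₁ (a := 0) (b := min S U) (le_min hS0 hU) ξ
  have p2 := pieceR F α hR N₂ (a := U) (b := max S U) (le_max_right _ _) ξ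
  have e : (∫ t in (0:ℝ)..S, R.indicator (fun _ => (1:ℂ)) t * Zg (mx F α ξ) t) - S * zr (mx F α ξ) =
      ((∫ t in (0:ℝ)..(min S U), R.indicator (fun _ => (1:ℂ)) t * Zg (mx F α ξ) t) -
        ((min S U - 0 : ℝ) : ℂ) * zr (mx F α ξ)) +
      ((∫ t in U..(max S U), R.indicator (fun _ => (1:ℂ)) t * Zg (mx F α ξ) t) -
        ((max S U - U : ℝ) : ℂ) * zr (mx F α ξ)) := by
    rcases le_total S U with h | h
    · rw [min_eq_left h, max_eq_right h, intervalIntegral.integral_same]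
      push_cast; ring
    · rw [min_eq_right h, max_eq_left h, ← intervalIntegral.integral_add_adjacent_intervals
        (ind_int hR (Zg_cont (mx F α ξ)) 0 U) (ind_int hR (Zg_cont (mx F α ξ)) U S)]
      push_cast; ring
  have p3 : ‖(∫ t in (0:ℝ)..S, R.indicator (fun _ => (1:ℂ)) t * Zg (mx F α ξ) t) - S * zr (mx F α ξ)‖ ≤
      8 * lam := by
    rw [e]
    refine (norm_add_le _ _).trans ?_
    linarith
  have p4 : ∑ π ∈ (Pk k)ᶜ, ‖IG S (mx F α ξ) π‖ ≤ (Fintype.card (Equiv.Perm (Fin k ⊕ Fin k)) : ℝ) * lam := by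
    calc _ ≤ ∑ _π ∈ (Pk k)ᶜ, lam := Finset.sum_le_sum fun π hπ => g8 π hπ
      _ = ((Pk k)ᶜ.card : ℝ) * lam := by rw [Finset.sum_const, nsmul_eq_mul]
      _ ≤ _ := by
          gcongr
          exact_mod_cast Finset.card_le_univ _
  have p5 := DR_bd hINV hR (S := S) (hQ ξ g1)
  have p6 : Q * ∑ π ∈ (Pk k)ᶜ, ‖IG S (mx F α ξ) π‖ ≤
      Q * ((Fintype.card (Equiv.Perm (Fin k ⊕ Fin k)) : ℝ) * lam) := by gcongr
  linarith

end

end Pool.Agent.Z72.SR
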