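import Pool.Agent.Z72.SR.As1

set_option autoImplicit false

/-! Project SR: assembly, the measure of the exceptional set. -/

namespace Pool.Agent.Z72.SR

open Complex Filter Topology MeasureTheory Set
open Pool.Agent.TH612.GS (z zN PN mP zr Sep DD z_cont PN_cont zp IG Pk inv_le_one DD_eq Zg_fz
  Zg_cont IG_cont GG_cont_t GG_cont_2 norm_GG S_INV tup ch wt cheb log_ev)
open Pool.Agent.TH612.CF (Zg GG Qs zab)
open Pool.Agent.Z72.SF (AF mx hF ee inF SepF Sf AF_cont Oi Oi_cont Sf_cont mx_cont ch1 SepF_measA zrF_cont S_ODF S_DGF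
  S_SWF S_ZAF S_NAF S_A2F)

noncomputable section

variable {k : ℕ}

/-- Chebyshev -/
lemma ch2 {μ : Measure (Fin k ⊕ Fin k → ℝ)} {h : (Fin k ⊕ Fin k → ℝ) → ℂ} (hc : Measurable h) {B X lam : ℝ}
    (hlam : 0 < lam) (hB : ∫⁻ ξ, ENNReal.ofReal (‖h ξ‖ ^ 2) ∂μ ≤ ENNReal.ofReal B) (hX : B ≤ X * lam ^ 2) :
    μ {ξ | lam < ‖h ξ‖} ≤ ENNReal.ofReal X := by
  refine (cheb hc.norm.aemeasurable hlam hB).trans (ENNReal.ofReal_le_ofReal ?_)
  rw [div_le_iff₀ (by positivity)]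
  exact hX

/-- Markov -/
lemma mk1 {μ : Measure (Fin k ⊕ Fin k → ℝ)} {h : (Fin k ⊕ Fin k → ℝ) → ℂ} (hc : Measurable h) {B X lam : ℝ}
    (hlam : 0 < lam) (hB : ∫⁻ ξ, ENNReal.ofReal ‖h ξ‖ ∂μ ≤ ENNReal.ofReal B) (hX : B ≤ X * lam) :
    μ {ξ | lam < ‖h ξ‖} ≤ ENNReal.ofReal X := by
  have hm : AEMeasurable (fun ξ => ENNReal.ofReal ‖h ξ‖) μ := hc.norm.ennreal_ofReal.aemeasurable
  have h1 := meas_ge_le_lintegral_div hm (ε := ENNReal.ofReal lam) (by simpa using hlam) ENNReal.ofReal_ne_top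
  have h2 : {ξ | lam < ‖h ξ‖} ⊆ {ξ | ENNReal.ofReal lam ≤ ENNReal.ofReal ‖h ξ‖} := fun ξ hξ =>
    ENNReal.ofReal_le_ofReal (le_of_lt hξ)
  refine (measure_mono h2).trans (h1.trans ?_)
  rw [ENNReal.div_le_iff (by simpa using hlam) ENNReal.ofReal_ne_top]
  refine hB.trans ?_
  rw [← ENNReal.ofReal_mul' hlam.le]
  exact ENNReal.ofReal_le_ofReal hX

lemma ee_le {m : ℕ} (hm : m ≤ 3) : ee m ≤ 4 / 3 := by
  unfold ee
  have : (m : ℝ) ≤ 3 := by exact_mod_cast hm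
  refine max_le (by norm_num) ?_
  linarith

theorem t_MUR (hRGM : S_RGM) (hEA : S_EA) (hRPR : S_RPR) (hIRR : S_IRR) (hODF : S_ODF) (hDGF : S_DGF) (hSWF : S_SWF)
    (hZAF : S_ZAF) (hNAF : S_NAF) (hA2F : S_A2F) (hINV : S_INV)
    (hcl : ∀ (k : ℕ) (F : Finset (Fin k)) (α : Fin k → ℝ) (κ η T : ℝ), IsClosed (Rg F α κ η T)) : S_MUR := by
  intro k F κ η hk hF3 hκ hκ1 hη hkη
  obtain ⟨δ, hδd⟩ : ∃ δ : ℝ, δ = η / 64 := ⟨_, rfl⟩
  have hδ : 0 < δ := by rw [hδd]; positivity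
  have hηδ : η = 64 * δ := by rw [hδd]; ring
  refine ⟨δ, hδ, fun α hα => ?_⟩
  classical
  have hk1 : (1:ℝ) ≤ k := by exact_mod_cast hk
  have hκδ : 1024 * δ ≤ κ := by nlinarith
  have h4kη : 4 * k * η ≤ κ / 2 := by nlinarith
  have hη1 : η ≤ 1 := by nlinarith
  have hδ1 : 1024 * δ ≤ 1 := hκδ.trans hκ1
  have hF4 : F.card ≤ 4 := by omega
  have hee := ee_le hF3
  obtain ⟨CA, hCA, hA⟩ := hA2F k F α δ hF4 hδ
  obtain ⟨C1, hC1, h1⟩ := hRPR k F α κ η δ hk hκ hη hδ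
  obtain ⟨C2, hC2, h2⟩ := hODF k F α δ hF4 hδ
  obtain ⟨C3, U3, hC3, hU3, h3⟩ := hDGF k F α δ hδ
  obtain ⟨C4, T4, hC4, hT4, h4⟩ := hSWF k F α
  obtain ⟨C5, T5, B5, hC5, hT5, h5⟩ := hZAF k F α hα
  obtain ⟨C6, T6, hC6, hT6, h6⟩ := hNAF k F α
  obtain ⟨C7, hC7, h7⟩ := hRGM k F α κ η δ hκ hη hδ
  obtain ⟨C8, hC8, h8⟩ := hEA k F α κ η hF3 hκ hη hη1
  obtain ⟨C9, hC9, h9⟩ := hIRR k δ hδ
  obtain ⟨P0, hP0⟩ : ∃ P0 : ℝ, P0 = (Fintype.card (Equiv.Perm (Fin k ⊕ Fin k)) : ℝ) := ⟨_, rfl⟩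
  have hP0' : 0 ≤ P0 := by rw [hP0]; exact Nat.cast_nonneg _
  -- large `T`
  have ev1 := log_ev (8 + P0 * C5) B5 (θ := δ) hδ
  have ev2 := log_ev (C6 + C1 * CA + C1 + 2 * C2 + 2 * C3 + P0 * C4 + 2 * (C9 * C8)) 0 (θ := δ) hδ
  have ev3 := log_ev C7 0 (θ := δ) hδ
  have ev4 := log_ev 1 2 (θ := δ) hδ
  have ev5 := (tendsto_rpow_atTop (y := κ) hκ).eventually_ge_atTop (max (max 3 U3) (max T5 T6))
  obtain ⟨T0, hT0⟩ := eventually_atTop.1 ((ev1.and ev2).and ((ev3.and ev4).and ev5))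
  refine ⟨max (max T0 T4) 3, fun T hT => ?_⟩
  have hTT0 : T0 ≤ T := ((le_max_left _ _).trans (le_max_left _ _)).trans hT
  have hTT4 : T4 ≤ T := ((le_max_right _ _).trans (le_max_left _ _)).trans hT
  have hT3 : 3 ≤ T := (le_max_right _ _).trans hT
  obtain ⟨⟨k1, k2⟩, ⟨k3, k4⟩, k5⟩ := hT0 T hTT0
  have hTp : 0 < T := by linarith
  have hT1 : 1 ≤ T := by linarith
  have hL : 1 ≤ Real.log T := by
    rw [Real.le_log_iff_exp_le hTp]
    have := Real.exp_one_lt_d9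
    linarith
  obtain ⟨R, hR⟩ : ∃ R : Set ℝ, R = Rg F α κ η T := ⟨_, rfl⟩
  have hRm : MeasurableSet R := by rw [hR]; exact (hcl k F α κ η T).measurableSet
  constructor
  · refine (h7 T hT3).trans (ENNReal.ofReal_le_ofReal ?_)
    have a1 : C7 ≤ T ^ δ := by simpa using k3
    calc C7 * T ^ (1 - η + δ) ≤ T ^ δ * T ^ (1 - η + δ) := by gcongr
      _ = T ^ (δ + (1 - η + δ)) := by rw [← Real.rpow_add hTp]
      _ ≤ T ^ (1 - δ) := Real.rpow_le_rpow_of_exponent_le hT1 (by linarith)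
  intro U S hTU hUT hS0 hST
  have hU3' : 3 ≤ U := ((le_max_left _ _).trans ((le_max_left _ _).trans k5)).trans hTU
  have hUU3 : U3 ≤ U := ((le_max_right _ _).trans ((le_max_left _ _).trans k5)).trans hTU
  have hUT5 : T5 ≤ U := ((le_max_left _ _).trans ((le_max_right _ _).trans k5)).trans hTU
  have hUT6 : T6 ≤ U := ((le_max_right _ _).trans ((le_max_right _ _).trans k5)).trans hTU
  have hU0 : 0 < U := by linarith
  have hU1 : 1 ≤ U := by linarith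
  have hLU : Real.log U ≤ Real.log T := Real.log_le_log hU0 hUT
  have hLU0 : 0 ≤ Real.log U := Real.log_nonneg hU1
  -- the lengths
  obtain ⟨N₁, hN₁⟩ : ∃ N₁ : ℕ, N₁ = ⌈8 * U⌉₊ := ⟨_, rfl⟩
  have hN1a : 8 * U ≤ N₁ := by rw [hN₁]; exact Nat.le_ceil _
  have hN1b : (N₁ : ℝ) ≤ 16 * U := by
    have := (Nat.ceil_lt_add_one (by positivity : 0 ≤ 8 * U)).le
    rw [← hN₁] at this
    linarith
  obtain ⟨N₂, hN₂⟩ : ∃ N₂ : ℕ, N₂ = ⌊U⌋₊ := ⟨_, rfl⟩
  have hN2a : (N₂ : ℝ) ≤ U := by rw [hN₂]; exact Nat.floor_le hU0.le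
  have hN2b : U ≤ 2 * N₂ := by
    have := Nat.lt_floor_add_one U
    rw [← hN₂] at this
    linarith
  have hN11 : 1 ≤ N₁ := by
    have : (1:ℝ) ≤ N₁ := by linarith
    exact_mod_cast this
  have hN21 : 1 ≤ N₂ := by
    have : (1:ℝ) ≤ N₂ := by linarith
    exact_mod_cast this
  -- the thresholds
  obtain ⟨lam, hlam⟩ : ∃ lam : ℝ, lam = T ^ (1 - 2 * δ) := ⟨_, rfl⟩
  have hlam0 : 0 < lam := by rw [hlam]; positivity
  obtain ⟨V, hV⟩ : ∃ V : ℝ, V = U ^ (2 * k) := ⟨_, rfl⟩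
  have hV0 : 0 < V := by rw [hV]; positivity
  have hUk1 : U ^ (2 * k - 1) = V * U⁻¹ := by
    rw [hV]
    have : U ^ (2 * k) = U ^ (2 * k - 1) * U := by rw [← pow_succ]; congr 1; omega
    rw [this]; field_simp
  have hUi : U⁻¹ ≤ T ^ (-κ) := by
    rw [Real.rpow_neg hTp.le]
    exact inv_anti₀ (by positivity) hTU
  have hUi2 : U ^ (-(1 / 2) : ℝ) ≤ T ^ (-(κ / 2)) := by
    have : (T ^ κ) ^ (1 / 2 : ℝ) ≤ U ^ (1 / 2 : ℝ) := Real.rpow_le_rpow (by positivity) hTU (by norm_num)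
    rw [← Real.rpow_mul hTp.le] at this
    rw [Real.rpow_neg hU0.le, Real.rpow_neg hTp.le]
    have e10 : κ * (1 / 2 : ℝ) = κ / 2 := by ring
    rw [e10] at this
    exact inv_anti₀ (by positivity) this
  have el : lam ^ 2 = T ^ (2 - 4 * δ) := by
    rw [hlam, ← Real.rpow_natCast, ← Real.rpow_mul hTp.le]
    congr 1; push_cast; ring
  obtain ⟨X, hX⟩ : ∃ X : ℝ, X = V * T ^ (-(2 * δ)) := ⟨_, rfl⟩
  have hX0 : 0 < X := by rw [hX]; positivity
  have eX : X * lam ^ 2 = V * T ^ (2 - 6 * δ) := by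
    rw [hX, el, mul_assoc, ← Real.rpow_add hTp]; congr 2; ring
  have eX2 : X * (lam / T) ^ 2 = V * T ^ (-(6 * δ)) := by
    rw [div_pow, ← mul_div_assoc, eX]
    have : T ^ (2 - 6 * δ) = T ^ (-(6 * δ)) * T ^ 2 := by
      rw [← Real.rpow_natCast, ← Real.rpow_add hTp]; congr 1; push_cast; ring
    rw [this]; field_simp
  have eX3 : X * lam = V * T ^ (1 - 4 * δ) := by
    rw [hX, hlam, mul_assoc, ← Real.rpow_add hTp]; congr 2; ring
  have mono : ∀ x y : ℝ, x ≤ y → T ^ x ≤ T ^ y := fun x y h => Real.rpow_le_rpow_of_exponent_le hT1 h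
  -- the second moment of the fixed block
  have hAT : ∫ t in (0:ℝ)..T, ‖AF F α t‖ ^ 2 ≤ CA * T ^ (4 / 3 + δ) := by
    refine (hA T hT3).trans ?_
    have := mono (ee F.card + δ) (4 / 3 + δ) (by linarith)
    gcongr
  have cA : Continuous fun t : ℝ => ‖AF F α t‖ ^ 2 := (AF_cont F α).norm.pow 2
  have hAb : ∀ a b : ℝ, 0 ≤ a → a ≤ b → b ≤ T → ∫ t in a..b, ‖AF F α t‖ ^ 2 ≤ CA * T ^ (4 / 3 + δ) := by
    intro a b ha hab hb
    refine le_trans ?_ hAT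
    refine intervalIntegral.integral_mono_interval ha hab hb ?_ (cA.intervalIntegrable _ _)
    exact Eventually.of_forall fun t => by positivity
  obtain ⟨r1, r2⟩ := h1 T U hU3' hUT hTU
  rw [← hR] at r1 r2
  have m1 : mP (Fin k ⊕ Fin k) U {ξ | lam < ‖GR F α R N₁ 0 (min S U) ξ‖} ≤ ENNReal.ofReal (C1 * CA * X) := by
    refine ch2 (GR_meas F α hRm N₁ (le_min hS0 hU0.le)) hlam0
      (r1 N₁ hN1a hN1b (min S U) (le_min hS0 hU0.le) (min_le_right _ _)) ?_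
    have a1 := hAb 0 (min S U) le_rfl (le_min hS0 hU0.le) ((min_le_left _ _).trans hST)
    have a0 : 0 ≤ ∫ t in (0:ℝ)..(min S U), ‖AF F α t‖ ^ 2 :=
      intervalIntegral.integral_nonneg (le_min hS0 hU0.le) fun t _ => by positivity
    rw [mul_assoc (C1 * CA) X, eX, ← hV]
    have e3 : T ^ δ * T ^ (4 / 3 + δ) ≤ T ^ (2 - 6 * δ) := by
      rw [← Real.rpow_add hTp]; exact mono _ _ (by linarith)
    calc C1 * T ^ δ * V * ∫ t in (0:ℝ)..(min S U), ‖AF F α t‖ ^ 2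
        ≤ C1 * T ^ δ * V * (CA * T ^ (4 / 3 + δ)) := by gcongr
      _ = C1 * CA * (V * (T ^ δ * T ^ (4 / 3 + δ))) := by ring
      _ ≤ _ := by gcongr
  have m2 : mP (Fin k ⊕ Fin k) U {ξ | lam < ‖GR F α R N₂ U (max S U) ξ‖} ≤ ENNReal.ofReal (C1 * X) := by
    refine ch2 (GR_meas F α hRm N₂ (le_max_right _ _)) hlam0
      (r2 N₂ hN2b hN2a (max S U) (le_max_right _ _) (max_le hST hUT)) ?_
    rw [mul_assoc C1 X, eX, hUk1]
    have e3 : T ^ (2 + 4 * k * η + δ) * T ^ (-κ) ≤ T ^ (2 - 6 * δ) := by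
      rw [← Real.rpow_add hTp]; exact mono _ _ (by linarith)
    calc C1 * T ^ (2 + 4 * k * η + δ) * (V * U⁻¹) ≤ C1 * T ^ (2 + 4 * k * η + δ) * (V * T ^ (-κ)) := by gcongr
      _ = C1 * (V * (T ^ (2 + 4 * k * η + δ) * T ^ (-κ))) := by ring
      _ ≤ _ := by gcongr
  have hod : ∀ (N : ℕ) (a b : ℝ), 1 ≤ N → (N : ℝ) ≤ 16 * U → 0 ≤ a → a ≤ b → b ≤ T →
      mP (Fin k ⊕ Fin k) U {ξ | lam < ‖Oi F α N a b ξ‖} ≤ ENNReal.ofReal (C2 * X) := by
    intro N a b hN1 hN ha hab hb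
    refine ch1 (Oi_cont F α N a b) hlam0 (h2 T U a b N hT3 hU1 hUT hN1 hN ha hab hb) ?_
    rw [mul_assoc C2 X, eX, ← hV]
    have e3 : T ^ (ee F.card + δ) ≤ T ^ (2 - 6 * δ) := mono _ _ (by linarith)
    calc C2 * V * T ^ (ee F.card + δ) = C2 * (V * T ^ (ee F.card + δ)) := by ring
      _ ≤ _ := by gcongr
  have m3 := hod N₁ 0 (min S U) hN11 hN1b le_rfl (le_min hS0 hU0.le) ((min_le_left _ _).trans hST)
  have m4 := hod N₂ U (max S U) hN21 (by linarith) hU0.le (le_max_right _ _) (max_le hST hUT)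
  have hdg : ∀ N : ℕ, U ≤ 2 * N → (N : ℝ) ≤ 16 * U →
      mP (Fin k ⊕ Fin k) U (SepF F α U ∩ {ξ | lam / T < ‖Sf F α N ξ - zr (mx F α ξ)‖}) ≤
        ENNReal.ofReal (C3 * X) := by
    intro N hN1 hN2
    have hm : AEMeasurable (fun ξ : Fin k ⊕ Fin k → ℝ => ‖Sf F α N ξ - zr (mx F α ξ)‖)
        ((mP (Fin k ⊕ Fin k) U).restrict (SepF F α U)) :=
      (((Sf_cont F α N).continuousOn.sub (zrF_cont hU0)).norm).aemeasurable (SepF_measA F α U)
    have hcb := cheb hm (lam := lam / T) (by positivity) (h3 U N hUU3 hN1 hN2)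
    have e0 : mP (Fin k ⊕ Fin k) U (SepF F α U ∩ {ξ | lam / T < ‖Sf F α N ξ - zr (mx F α ξ)‖}) ≤
        ((mP (Fin k ⊕ Fin k) U).restrict (SepF F α U)) {ξ | lam / T < ‖Sf F α N ξ - zr (mx F α ξ)‖} := by
      rw [inter_comm]
      exact Measure.le_restrict_apply _ _
    refine e0.trans (hcb.trans (ENNReal.ofReal_le_ofReal ?_))
    rw [div_le_iff₀ (by positivity), mul_assoc C3 X, eX2, ← hV]
    have e3 : U ^ (δ - 1) ≤ T ^ (-(6 * δ)) := by
      calc U ^ (δ - 1) ≤ U ^ (-(1 / 2) : ℝ) := Real.rpow_le_rpow_of_exponent_le hU1 (by linarith)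
        _ ≤ T ^ (-(κ / 2)) := hUi2
        _ ≤ T ^ (-(6 * δ)) := mono _ _ (by linarith)
    calc C3 * V * U ^ (δ - 1) = C3 * (V * U ^ (δ - 1)) := by ring
      _ ≤ _ := by gcongr
  have m5 := hdg N₁ (by linarith) hN1b
  have m6 := hdg N₂ hN2b (by linarith)
  have m7 : mP (Fin k ⊕ Fin k) U (⋃ π ∈ (Pk k)ᶜ, {ξ | lam < ‖IG S (mx F α ξ) π‖}) ≤
      ENNReal.ofReal (P0 * (C4 * X)) := by
    refine (measure_biUnion_finset_le _ _).trans ?_
    calc ∑ π ∈ (Pk k)ᶜ, mP (Fin k ⊕ Fin k) U {ξ | lam < ‖IG S (mx F α ξ) π‖}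
        ≤ ∑ _π ∈ (Pk k)ᶜ, ENNReal.ofReal (C4 * X) := by
          refine Finset.sum_le_sum fun π hπ => ?_
          have hπ' : ∃ j, (π (Sum.inr j)).isLeft = true := by
            rw [Finset.mem_compl, Pk, Finset.mem_filter, not_and] at hπ
            have := hπ (Finset.mem_univ _)
            push Not at this
            obtain ⟨j, hj⟩ := this
            exact ⟨j, by simpa using hj⟩
          refine ch1 ((IG_cont S π).comp (mx_cont F α)) hlam0 (h4 T U S π hTT4 hU0 hUT hS0 hST hπ') ?_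
          rw [mul_assoc C4 X, eX, hUk1]
          have a5 : Real.log T ^ 2 ≤ T ^ δ := by simpa using k4
          have e3 : T ^ (-κ) * T ^ 2 * T ^ δ ≤ T ^ (2 - 6 * δ) := by
            rw [← Real.rpow_natCast, ← Real.rpow_add hTp, ← Real.rpow_add hTp]
            exact mono _ _ (by push_cast; linarith)
          calc C4 * (V * U⁻¹) * T ^ 2 * Real.log T ^ 2
              ≤ C4 * (V * T ^ (-κ)) * T ^ 2 * T ^ δ := by gcongr
            _ = C4 * (V * (T ^ (-κ) * T ^ 2 * T ^ δ)) := by ring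
            _ ≤ _ := by gcongr
      _ = ENNReal.ofReal (((Pk k)ᶜ.card : ℝ) * (C4 * X)) := by
          rw [Finset.sum_const, nsmul_eq_mul,
            ENNReal.ofReal_mul (p := (((Pk k)ᶜ.card : ℕ) : ℝ)) (Nat.cast_nonneg _), ENNReal.ofReal_natCast]
      _ ≤ _ := by
          refine ENNReal.ofReal_le_ofReal ?_
          gcongr
          rw [hP0]
          exact_mod_cast Finset.card_le_univ _
  have m8 : mP (Fin k ⊕ Fin k) U (SepF F α U)ᶜ ≤ ENNReal.ofReal (C6 * X) := by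
    refine (h6 U hUT6).trans (ENNReal.ofReal_le_ofReal ?_)
    have e8 : U ^ (2 * k - 1 / 2 : ℝ) = V * U ^ (-(1 / 2) : ℝ) := by
      rw [hV, ← Real.rpow_natCast, ← Real.rpow_add hU0]
      congr 1; push_cast; ring
    rw [e8, hX]
    have : U ^ (-(1 / 2) : ℝ) ≤ T ^ (-(2 * δ)) := hUi2.trans (mono _ _ (by linarith))
    gcongr
  have hir : ∀ (N : ℕ) (a b : ℝ), 1 ≤ N → (N : ℝ) ≤ 16 * U → 0 ≤ a → a ≤ b → b ≤ T →
      mP (Fin k ⊕ Fin k) U {ξ | lam < ‖IR F α R N a b ξ‖} ≤ ENNReal.ofReal (C9 * C8 * X) := by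
    intro N a b hN1 hN ha hab hb
    have q1 := h9 F α R T U a b N hRm hT3 hU1 hUT hN1 hN ha hab hb
    have q2 := h8 T hT3
    rw [← hR] at q2
    have q3 : ∫⁻ ξ, ENNReal.ofReal ‖IR F α R N a b ξ‖ ∂(mP (Fin k ⊕ Fin k) U) ≤
        ENNReal.ofReal (C9 * T ^ δ * U ^ (2 * k) * (C8 * T ^ (1 - η / 8))) := by
      refine q1.trans ?_
      rw [ENNReal.ofReal_mul (p := C9 * T ^ δ * U ^ (2 * k)) (by positivity)]
      gcongr
    refine mk1 (IR_meas F α hRm N hab) hlam0 q3 ?_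
    rw [mul_assoc (C9 * C8) X, eX3, ← hV]
    have e3 : T ^ δ * T ^ (1 - η / 8) ≤ T ^ (1 - 4 * δ) := by
      rw [← Real.rpow_add hTp]; exact mono _ _ (by linarith)
    calc C9 * T ^ δ * V * (C8 * T ^ (1 - η / 8)) = C9 * C8 * (V * (T ^ δ * T ^ (1 - η / 8))) := by ring
      _ ≤ _ := by gcongr
  have m9 := hir N₁ 0 (min S U) hN11 hN1b le_rfl (le_min hS0 hU0.le) ((min_le_left _ _).trans hST)
  have m10 := hir N₂ U (max S U) hN21 (by linarith) hU0.le (le_max_right _ _) (max_le hST hUT)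
  -- the threshold
  have hΛ : 8 * lam + C5 * Real.log U ^ B5 * ((Fintype.card (Equiv.Perm (Fin k ⊕ Fin k)) : ℝ) * lam) ≤
      T ^ (1 - δ) := by
    rw [← hP0]
    have a2 : T ^ (1 - δ) = T ^ δ * lam := by
      rw [hlam, ← Real.rpow_add hTp]
      congr 1; ring
    rw [a2]
    have a3 : 8 * lam + C5 * Real.log U ^ B5 * (P0 * lam) = (8 + P0 * C5 * Real.log U ^ B5) * lam := by ring
    rw [a3]
    refine mul_le_mul_of_nonneg_right (le_trans ?_ k1) hlam0.le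
    have b1 : 1 ≤ Real.log T ^ B5 := one_le_pow₀ hL
    have b2 : Real.log U ^ B5 ≤ Real.log T ^ B5 := pow_le_pow_left₀ hLU0 hLU _
    calc 8 + P0 * C5 * Real.log U ^ B5 ≤ 8 * Real.log T ^ B5 + P0 * C5 * Real.log T ^ B5 := by
          refine add_le_add (by linarith) ?_
          gcongr
      _ = _ := by ring
  -- conclusion
  rw [← hR]
  refine (measure_mono (Bad_subR hINV hRm (N₁ := N₁) (N₂ := N₂) (Q := C5 * Real.log U ^ B5) hU0.le hUT hS0 hST hTp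
    hlam0.le (by positivity) (fun ξ hξ π => h5 U hUT5 ξ hξ π) hΛ)).trans ?_
  have step : ∀ {A B : Set (Fin k ⊕ Fin k → ℝ)} {x w : ℝ}, 0 ≤ x → 0 ≤ w →
      mP (Fin k ⊕ Fin k) U A ≤ ENNReal.ofReal x → mP (Fin k ⊕ Fin k) U B ≤ ENNReal.ofReal w →
      mP (Fin k ⊕ Fin k) U (A ∪ B) ≤ ENNReal.ofReal (x + w) := by
    intro A B x w hx hw hA' hB'
    rw [ENNReal.ofReal_add hx hw]
    exact (measure_union_le _ _).trans (add_le_add hA' hB')
  have tot := step (by positivity) (by positivity) (step (by positivity) (by positivity)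
    (step (by positivity) (by positivity) (step (by positivity) (by positivity) (step (by positivity) (by positivity)
    (step (by positivity) (by positivity) (step (by positivity) (by positivity)
    (step (by positivity) (by positivity) (step (by positivity) (by positivity) m8 m1) m2) m3) m4) m5) m6) m7) m9) m10
  refine tot.trans (ENNReal.ofReal_le_ofReal ?_)
  have g1 : C6 + C1 * CA + C1 + 2 * C2 + 2 * C3 + P0 * C4 + 2 * (C9 * C8) ≤ T ^ δ := by simpa using k2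
  calc _ = (C6 + C1 * CA + C1 + 2 * C2 + 2 * C3 + P0 * C4 + 2 * (C9 * C8)) * X := by ring
    _ ≤ T ^ δ * X := by gcongr
    _ = V * T ^ (-δ) := by
        rw [hX]
        have : T ^ (-δ) = T ^ δ * T ^ (-(2 * δ)) := by rw [← Real.rpow_add hTp]; congr 1; ring
        rw [this]; ring
    _ = _ := by rw [hV]

end

end Pool.Agent.Z72.SR
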