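import Pool.Agent.Z72.SF.Stm

set_option autoImplicit false

/-!
Project SR (helper72): shifted moments of zeta of order `2k` with up to three fixed shifts `α_j` (`j` in `F`) and all
the other shifts in `[0,U]`, `T^κ ≤ U ≤ T`, for every `κ > 0`, integrated over the regular times.
Statements.
-/

namespace Pool.Agent.Z72.SR

open Complex Filter Topology MeasureTheory Set
open Pool.Agent.TH612.GS (z zN PN mP zr DD)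
open Pool.Agent.TH612.CF (Zg GG Qs)
open Pool.Agent.Z72.SF (AF mx hF ee inF SepF Sf)

noncomputable section

variable {k : ℕ}

/-- the regular times -/
def Rg (F : Finset (Fin k)) (α : Fin k → ℝ) (κ η T : ℝ) : Set ℝ :=
  {t | 0 ≤ t ∧ t ≤ T ∧ (∀ j ∈ F, ‖z (t + α j)‖ ≤ T ^ η) ∧
    ∀ U : ℝ, T ^ κ ≤ U → U ≤ T → ∫ c in (0:ℝ)..U, ‖z (t + c)‖ ^ 2 ≤ T ^ η * U}

/-- the replacement integral over the times in `R` -/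
def GR (F : Finset (Fin k)) (α : Fin k → ℝ) (R : Set ℝ) (N : ℕ) (a b : ℝ) (ξ : Fin k ⊕ Fin k → ℝ) : ℂ :=
  ∫ t in a..b, R.indicator (fun _ => (1:ℂ)) t *
    (AF F α t * (∏ i, hF F z i (t + ξ i) - ∏ i, hF F (PN N) i (t + ξ i)))

/-- the integral of the polynomials over the other times -/
def IR (F : Finset (Fin k)) (α : Fin k → ℝ) (R : Set ℝ) (N : ℕ) (a b : ℝ) (ξ : Fin k ⊕ Fin k → ℝ) : ℂ :=
  ∫ t in a..b, Rᶜ.indicator (fun _ => (1:ℂ)) t * (AF F α t * ∏ i, hF F (PN N) i (t + ξ i))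

/-- the difference of the integral over the times in `R` and the integral of the recipe -/
def DR (R : Set ℝ) (S : ℝ) (γ : Fin k ⊕ Fin k → ℝ) : ℂ :=
  DD S γ - ∫ t in (0:ℝ)..S, Rᶜ.indicator (fun _ => (1:ℂ)) t * Zg γ t

/-- the exceptional set -/
def BadR (F : Finset (Fin k)) (α : Fin k → ℝ) (R : Set ℝ) (U S lam : ℝ) : Set (Fin k ⊕ Fin k → ℝ) :=
  {ξ | (∀ i, 0 ≤ ξ i ∧ ξ i ≤ U) ∧ lam < ‖DR R S (mx F α ξ)‖}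

/-! ### Statements -/

/-- RGM: almost all times are regular -/
def S_RGM : Prop := ∀ (k : ℕ) (F : Finset (Fin k)) (α : Fin k → ℝ) (κ η ε : ℝ), 0 < κ → 0 < η → 0 < ε →
  ∃ C : ℝ, 0 < C ∧ ∀ T : ℝ, 3 ≤ T → volume (Icc 0 T \ Rg F α κ η T) ≤ ENNReal.ofReal (C * T ^ (1 - η + ε))

/-- EA: the fixed block over the other times -/
def S_EA : Prop := ∀ (k : ℕ) (F : Finset (Fin k)) (α : Fin k → ℝ) (κ η : ℝ), F.card ≤ 3 → 0 < κ → 0 < η → η ≤ 1 →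
  ∃ C : ℝ, 0 < C ∧ ∀ T : ℝ, 3 ≤ T →
  ∫⁻ t in Icc 0 T \ Rg F α κ η T, ENNReal.ofReal ‖AF F α t‖ ≤ ENNReal.ofReal (C * T ^ (1 - η / 8))

/-- RPR: replacement of the factors which are not fixed, over the regular times -/
def S_RPR : Prop := ∀ (k : ℕ) (F : Finset (Fin k)) (α : Fin k → ℝ) (κ η ε : ℝ), 1 ≤ k → 0 < κ → 0 < η → 0 < ε →
  ∃ C : ℝ, 0 < C ∧ ∀ T U : ℝ, 3 ≤ U → U ≤ T → T ^ κ ≤ U →
  (∀ N : ℕ, 8 * U ≤ N → (N : ℝ) ≤ 16 * U → ∀ b : ℝ, 0 ≤ b → b ≤ U →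
    ∫⁻ ξ, ENNReal.ofReal (‖GR F α (Rg F α κ η T) N 0 b ξ‖ ^ 2) ∂(mP (Fin k ⊕ Fin k) U) ≤
      ENNReal.ofReal (C * T ^ ε * U ^ (2 * k) * ∫ t in (0:ℝ)..b, ‖AF F α t‖ ^ 2)) ∧
  ∀ N : ℕ, U ≤ 2 * N → (N : ℝ) ≤ U → ∀ b : ℝ, U ≤ b → b ≤ T →
    ∫⁻ ξ, ENNReal.ofReal (‖GR F α (Rg F α κ η T) N U b ξ‖ ^ 2) ∂(mP (Fin k ⊕ Fin k) U) ≤
      ENNReal.ofReal (C * T ^ (2 + 4 * k * η + ε) * U ^ (2 * k - 1))

/-- IRR: the polynomials over the other times, first moment -/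
def S_IRR : Prop := ∀ (k : ℕ) (ε : ℝ), 0 < ε → ∃ C : ℝ, 0 < C ∧
  ∀ (F : Finset (Fin k)) (α : Fin k → ℝ) (R : Set ℝ) (T U a b : ℝ) (N : ℕ), MeasurableSet R → 3 ≤ T → 1 ≤ U →
  U ≤ T → 1 ≤ N → (N : ℝ) ≤ 16 * U → 0 ≤ a → a ≤ b → b ≤ T →
  ∫⁻ ξ, ENNReal.ofReal ‖IR F α R N a b ξ‖ ∂(mP (Fin k ⊕ Fin k) U) ≤
    ENNReal.ofReal (C * T ^ ε * U ^ (2 * k)) * ∫⁻ t in Icc 0 T \ R, ENNReal.ofReal ‖AF F α t‖

/-- MUR: the exceptional set has small measure -/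
def S_MUR : Prop := ∀ (k : ℕ) (F : Finset (Fin k)) (κ η : ℝ), 1 ≤ k → F.card ≤ 3 → 0 < κ → κ ≤ 1 → 0 < η →
  8 * (k + 1) * η ≤ κ → ∃ δ : ℝ, 0 < δ ∧
  ∀ α : Fin k → ℝ, (∀ i ∈ F, ∀ j ∈ F, i ≠ j → α i ≠ α j) → ∃ T₀ : ℝ, ∀ T : ℝ, T₀ ≤ T →
  volume (Icc 0 T \ Rg F α κ η T) ≤ ENNReal.ofReal (T ^ (1 - δ)) ∧
  ∀ U S : ℝ, T ^ κ ≤ U → U ≤ T → 0 ≤ S → S ≤ T →
  mP (Fin k ⊕ Fin k) U (BadR F α (Rg F α κ η T) U S (T ^ (1 - δ))) ≤ ENNReal.ofReal (U ^ (2 * k) * T ^ (-δ))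

end

end Pool.Agent.Z72.SR
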